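import Pool.Agent.KS6_42.GQ.GP

set_option autoImplicit false

/-!
# Finite subgroups of a graph product of finite groups

The order of a finite subgroup of a graph product of finite groups divides the product of the
orders of the vertex groups.
-/

namespace Pool.Agent.KS6_42.GQ

open GP

/-- all finite subgroups have order dividing `m` -/
def DV (m : ℕ) (H : Type*) [Group H] : Prop := ∀ N : Subgroup H, Finite N → Nat.card N ∣ m

theorem DV_freeGroup (X : Type*) : DV 1 (FreeGroup X) := by
  intro N hN
  have : N = ⊥ := by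
    rw [Subgroup.eq_bot_iff_forall]
    intro x hx
    obtain ⟨k, hk, hk'⟩ := isOfFinOrder_iff_pow_eq_one.mp (isOfFinOrder_of_finite (⟨x, hx⟩ : N))
    have h1 : x ^ k = 1 := by
      have := congrArg Subtype.val hk'
      simpa using this
    exact (pow_eq_one_iff_left hk.ne').mp h1
  subst this
  simp

theorem DV_finite (K : Type*) [Group K] : DV (Nat.card K) K :=
  fun N _ => Subgroup.card_subgroup_dvd_card N

theorem DV_inj {m : ℕ} {H K : Type*} [Group H] [Group K] (f : H →* K)
    (hf : Function.Injective f) (hK : DV m K) : DV m H := by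
  intro N hN
  have e := (Subgroup.equivMapOfInjective N f hf).toEquiv
  rw [Nat.card_congr e]
  exact hK _ (Finite.of_equiv _ e)

theorem DV_semidirect {m n : ℕ} {N Q : Type*} [Group N] [Group Q] {φ : Q →* MulAut N}
    (hN : DV m N) (hQ : DV n Q) : DV (m * n) (N ⋊[φ] Q) := by
  intro K hK
  let f : K →* Q := (SemidirectProduct.rightHom).comp K.subtype
  have h1 : Nat.card f.ker * Nat.card f.range = Nat.card K := by
    rw [← Subgroup.index_ker, Subgroup.card_mul_index]
  rw [← h1]
  have h2 : Nat.card f.range ∣ n := hQ _ (Finite.of_surjective f.rangeRestrict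
    f.rangeRestrict_surjective)
  let K0 : Subgroup N := K.comap SemidirectProduct.inl
  let g : f.ker → K0 := fun x => ⟨x.1.1.left, by
    show SemidirectProduct.inl x.1.1.left ∈ K
    have hx : x.1.1.right = 1 := x.2
    have : SemidirectProduct.inl x.1.1.left = x.1.1 := by
      apply SemidirectProduct.ext
      · simp
      · simp [hx]
    rw [this]
    exact x.1.2⟩
  have hg : Function.Bijective g := by
    constructor
    · intro x y h
      have hx : x.1.1.right = 1 := x.2
      have hy : y.1.1.right = 1 := y.2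
      have h' : x.1.1.left = y.1.1.left := congrArg Subtype.val h
      apply Subtype.ext
      apply Subtype.ext
      exact SemidirectProduct.ext h' (hx.trans hy.symm)
    · rintro ⟨z, hz⟩
      exact ⟨⟨⟨SemidirectProduct.inl z, hz⟩, by
        show (SemidirectProduct.inl z : N ⋊[φ] Q).right = 1
        simp⟩, by
        apply Subtype.ext
        show (SemidirectProduct.inl z : N ⋊[φ] Q).left = z
        simp⟩
  have h3 : Finite K0 := Finite.of_surjective g hg.2
  rw [Nat.card_eq_of_bijective g hg]
  exact Nat.mul_dvd_mul (hN _ h3) h2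

/-- The free product of copies of `K`. -/
abbrev FPK (Ω K : Type) [Group K] : Type := GraphProd (⊥ : SimpleGraph Ω) (fun _ : Ω => K)

/-- a factor -/
def fac {Ω K : Type} [Group K] (κ : Ω) : K →* FPK Ω K :=
  GP.of (Γ := (⊥ : SimpleGraph Ω)) (A := fun _ : Ω => K) κ

theorem bot_not_adj {Ω : Type} {u v : Ω} (h : (⊥ : SimpleGraph Ω).Adj u v) : False := h

/-- homomorphisms out of a free product -/
def liftF {Ω K : Type} [Group K] {H : Type*} [Group H] (f : Ω → K →* H) : FPK Ω K →* H :=
  GP.lift (Γ := (⊥ : SimpleGraph Ω)) (A := fun _ : Ω => K) f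
    (fun _ _ h => (bot_not_adj h).elim)

@[simp] theorem liftF_fac {Ω K : Type} [Group K] {H : Type*} [Group H] (f : Ω → K →* H) (κ : Ω)
    (k : K) : liftF f (fac κ k) = f κ k := GP.lift_of _ _ _ _

theorem extF {Ω K : Type} [Group K] {H : Type*} [Group H] {f g : FPK Ω K →* H}
    (h : ∀ κ k, f (fac κ k) = g (fac κ k)) : f = g := GP.hom_ext h

section free

variable (Ω K : Type) [Group K]

/-- the free generators -/
abbrev Bas : Type := Ω × {k : K // k ≠ 1}

variable {Ω K}

open Classical in
/-- the free generators, with the convention at the identity -/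
noncomputable def gg (κ : Ω) (k : K) : FreeGroup (Bas Ω K) :=
  if h : k = 1 then 1 else FreeGroup.of (κ, ⟨k, h⟩)

theorem gg_one (κ : Ω) : gg κ (1 : K) = 1 := by simp [gg]

theorem gg_ne (κ : Ω) (k : {k : K // k ≠ 1}) : gg κ k.1 = FreeGroup.of (κ, k) := by
  simp [gg, k.2]

/-- the twisting map -/
noncomputable def aut0 (h : K) : FreeGroup (Bas Ω K) →* FreeGroup (Bas Ω K) :=
  FreeGroup.lift (fun b => (gg b.1 h)⁻¹ * gg b.1 (h * b.2.1))

theorem aut0_gg (h : K) (κ : Ω) (k : K) :
    aut0 h (gg κ k) = (gg κ h)⁻¹ * gg κ (h * k) := by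
  by_cases hk : k = 1
  · subst hk
    rw [gg_one, map_one, mul_one, inv_mul_cancel]
  · have := gg_ne κ ⟨k, hk⟩
    simp only at this
    rw [this]
    unfold aut0
    rw [FreeGroup.lift_apply_of]

theorem aut0_mul (h h' : K) :
    (aut0 (h * h') : FreeGroup (Bas Ω K) →* FreeGroup (Bas Ω K)) = (aut0 h).comp (aut0 h') := by
  ext ⟨κ, k⟩
  rw [← gg_ne, MonoidHom.comp_apply, aut0_gg, aut0_gg, map_mul, map_inv, aut0_gg, aut0_gg,
    mul_assoc]
  group

theorem aut0_one : (aut0 1 : FreeGroup (Bas Ω K) →* FreeGroup (Bas Ω K)) = MonoidHom.id _ := by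
  ext ⟨κ, k⟩
  rw [← gg_ne, aut0_gg, gg_one, inv_one, one_mul, one_mul]
  rfl

/-- the twisting action -/
noncomputable def autK : K →* MulAut (FreeGroup (Bas Ω K)) where
  toFun h :=
    { toFun := aut0 h
      invFun := aut0 h⁻¹
      left_inv := by
        intro x
        rw [← MonoidHom.comp_apply, ← aut0_mul, inv_mul_cancel, aut0_one]; rfl
      right_inv := by
        intro x
        rw [← MonoidHom.comp_apply, ← aut0_mul, mul_inv_cancel, aut0_one]; rfl
      map_mul' := map_mul _ }
  map_one' := by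
    ext x
    show aut0 1 x = x
    rw [aut0_one]; rfl
  map_mul' h h' := by
    ext x
    show aut0 (h * h') x = aut0 h (aut0 h' x)
    rw [aut0_mul]; rfl

theorem autK_apply (h : K) (x : FreeGroup (Bas Ω K)) : autK h x = aut0 h x := rfl

/-- Embedding of the free product. -/
noncomputable def alpha : FPK Ω K →* (FreeGroup (Bas Ω K)) ⋊[autK] K :=
  liftF (fun κ =>
    { toFun := fun k => ⟨gg κ k, k⟩
      map_one' := by
        apply SemidirectProduct.ext
        · exact gg_one κ
        · rfl
      map_mul' := by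
        intro h k
        apply SemidirectProduct.ext
        · rw [SemidirectProduct.mul_left]
          simp only
          rw [autK_apply, aut0_gg, mul_inv_cancel_left]
        · rfl })

theorem alpha_fac (κ : Ω) (k : K) : alpha (fac κ k) = ⟨gg κ k, k⟩ := by
  unfold alpha
  rw [liftF_fac]
  rfl

/-- the map on the free group -/
def betaN (κ0 : Ω) : FreeGroup (Bas Ω K) →* FPK Ω K :=
  FreeGroup.lift (fun b => fac b.1 b.2.1 * (fac κ0 b.2.1)⁻¹)

theorem betaN_gg (κ0 κ : Ω) (k : K) : betaN κ0 (gg κ k) = fac κ k * (fac κ0 k)⁻¹ := by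
  by_cases hk : k = 1
  · subst hk
    rw [gg_one, map_one, map_one, map_one, inv_one, mul_one]
  · have := gg_ne κ ⟨k, hk⟩
    simp only at this
    rw [this]
    unfold betaN
    rw [FreeGroup.lift_apply_of]

/-- The left inverse. -/
noncomputable def beta (κ0 : Ω) : (FreeGroup (Bas Ω K)) ⋊[autK] K →* FPK Ω K :=
  SemidirectProduct.lift (betaN κ0) (fac κ0) (by
    intro g
    ext ⟨κ, k⟩
    simp only [MonoidHom.comp_apply, MulEquiv.coe_toMonoidHom]
    rw [← gg_ne, autK_apply, aut0_gg, map_mul, map_inv, betaN_gg, betaN_gg, betaN_gg,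
      MulAut.conj_apply, map_mul, map_mul]
    group)

theorem beta_alpha (κ0 : Ω) : (beta κ0).comp (alpha (K := K)) = MonoidHom.id _ := by
  apply extF
  intro κ k
  rw [MonoidHom.comp_apply, alpha_fac, SemidirectProduct.mk_eq_inl_mul_inr, map_mul]
  unfold beta
  rw [SemidirectProduct.lift_inl, SemidirectProduct.lift_inr, betaN_gg, inv_mul_cancel_right]
  rfl

theorem DV_FPK (κ0 : Ω) : DV (Nat.card K) (FPK Ω K) := by
  have h1 : DV (1 * Nat.card K) ((FreeGroup (Bas Ω K)) ⋊[autK] K) :=
    DV_semidirect (DV_freeGroup _) (DV_finite K)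
  rw [one_mul] at h1
  refine DV_inj alpha ?_ h1
  intro x y h
  have := congrArg (beta κ0) h
  rw [← MonoidHom.comp_apply, ← MonoidHom.comp_apply, beta_alpha] at this
  exact this

end free

section step

/-- permuting the factors -/
def permHom {Ω K : Type} [Group K] (σ : Equiv.Perm Ω) : FPK Ω K →* FPK Ω K :=
  liftF (fun κ => fac (σ κ))

theorem permHom_fac {Ω K : Type} [Group K] (σ : Equiv.Perm Ω) (κ : Ω) (k : K) :
    permHom σ (fac κ k) = fac (σ κ) k := liftF_fac _ _ _

theorem permHom_mul {Ω K : Type} [Group K] (σ τ : Equiv.Perm Ω) (x : FPK Ω K) :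
    permHom (σ * τ) x = permHom σ (permHom τ x) := by
  have : (permHom (σ * τ) : FPK Ω K →* FPK Ω K) = (permHom σ).comp (permHom τ) := by
    apply extF
    intro κ k
    rw [MonoidHom.comp_apply, permHom_fac, permHom_fac, permHom_fac]
    rfl
  rw [this]; rfl

theorem permHom_one {Ω K : Type} [Group K] (x : FPK Ω K) :
    permHom (1 : Equiv.Perm Ω) x = x := by
  have : (permHom (1 : Equiv.Perm Ω) : FPK Ω K →* FPK Ω K) = MonoidHom.id _ := by
    apply extF
    intro κ k
    rw [permHom_fac]; rfl
  rw [this]; rfl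

/-- permuting the factors, as an automorphism -/
def permAut (Ω K : Type) [Group K] : Equiv.Perm Ω →* MulAut (FPK Ω K) where
  toFun σ :=
    { toFun := permHom σ
      invFun := permHom σ⁻¹
      left_inv := by intro x; rw [← permHom_mul, inv_mul_cancel, permHom_one]
      right_inv := by intro x; rw [← permHom_mul, mul_inv_cancel, permHom_one]
      map_mul' := map_mul _ }
  map_one' := by ext x; exact permHom_one x
  map_mul' σ τ := by ext x; exact permHom_mul σ τ x

variable {V : Type} (Γ : SimpleGraph V) (A : V → Type) [∀ v, Group (A v)] (s : V)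

/-- the other vertices -/
abbrev V' (s : V) : Type := {v : V // v ≠ s}

/-- the induced graph -/
abbrev Γ' : SimpleGraph (V' s) := Γ.comap Subtype.val

/-- the other vertex groups -/
abbrev A' : V' s → Type := fun v => A v.1

/-- the smaller group -/
abbrev W' : Type := GraphProd (Γ' Γ s) (A' A s)

/-- the link subgroup -/
def P' : Subgroup (W' Γ A s) := sub {v : V' s | Γ.Adj s v.1}

/-- the index set -/
abbrev Om : Type := W' Γ A s ⧸ P' Γ A s

/-- the action of the smaller group -/
def phi' : W' Γ A s →* MulAut (FPK (Om Γ A s) (A s)) :=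
  (permAut (Om Γ A s) (A s)).comp (MulAction.toPermHom (W' Γ A s) (Om Γ A s))

theorem phi'_fac (g : W' Γ A s) (κ : Om Γ A s) (k : A s) :
    phi' Γ A s g (fac κ k) = fac (g • κ) k := permHom_fac _ _ _

/-- the semidirect product -/
abbrev SD : Type := (FPK (Om Γ A s) (A s)) ⋊[phi' Γ A s] (W' Γ A s)

/-- the vertex `s` -/
def psiS : A s →* SD Γ A s :=
  (SemidirectProduct.inl).comp (fac ((1 : W' Γ A s) : Om Γ A s))

/-- the other vertices -/
def psiO (v : V' s) : A v.1 →* SD Γ A s :=
  (SemidirectProduct.inr).comp (GP.of (Γ := Γ' Γ s) (A := A' A s) v)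

theorem psi_comm (v : V' s) (h : Γ.Adj s v.1) (x : A s) (y : A v.1) :
    psiS Γ A s x * psiO Γ A s v y = psiO Γ A s v y * psiS Γ A s x := by
  have h1 : phi' Γ A s (GP.of (Γ := Γ' Γ s) (A := A' A s) v y)
      (fac ((1 : W' Γ A s) : Om Γ A s) x) = fac ((1 : W' Γ A s) : Om Γ A s) x := by
    rw [phi'_fac]
    congr 2
    show ((GP.of (Γ := Γ' Γ s) (A := A' A s) v y * 1 : W' Γ A s) : Om Γ A s) =
      ((1 : W' Γ A s) : Om Γ A s)
    rw [mul_one, eq_comm, QuotientGroup.eq, inv_one, one_mul]
    exact of_mem_sub (A := A' A s) (by exact h) _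
  have h2 := SemidirectProduct.inl_aut (φ := phi' Γ A s) (GP.of (Γ := Γ' Γ s) (A := A' A s) v y)
    (fac ((1 : W' Γ A s) : Om Γ A s) x)
  rw [h1, map_inv, eq_mul_inv_iff_mul_eq] at h2
  exact h2

open Classical in
/-- the forward maps -/
noncomputable def psiV (v : V) : A v →* SD Γ A s :=
  if h : v = s then h ▸ (psiS Γ A s) else psiO Γ A s ⟨v, h⟩

theorem psiV_self : psiV Γ A s s = psiS Γ A s := by
  simp [psiV]

theorem psiV_ne (v : V) (h : v ≠ s) : psiV Γ A s v = psiO Γ A s ⟨v, h⟩ := by
  simp [psiV, h]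

/-- the forward map -/
noncomputable def Psi : GraphProd Γ A →* SD Γ A s :=
  GP.lift (psiV Γ A s) (by
    intro u v h x y
    by_cases hu : u = s
    · subst hu
      have hv : v ≠ u := by rintro rfl; exact Γ.loopless.irrefl _ h
      rw [psiV_self, psiV_ne Γ A u v hv]
      exact psi_comm Γ A u ⟨v, hv⟩ h x y
    · by_cases hv : v = s
      · subst hv
        rw [psiV_self, psiV_ne Γ A v u hu]
        exact (psi_comm Γ A v ⟨u, hu⟩ h.symm y x).symm
      · rw [psiV_ne Γ A s u hu, psiV_ne Γ A s v hv]
        unfold psiO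
        rw [MonoidHom.comp_apply, MonoidHom.comp_apply, ← map_mul, ← map_mul]
        congr 1
        exact of_comm (Γ := Γ' Γ s) (A := A' A s) (by exact h) _ _)

/-- inclusion of the smaller group -/
def incl : W' Γ A s →* GraphProd Γ A :=
  GP.lift (Γ := Γ' Γ s) (A := A' A s) (fun v => GP.of (Γ := Γ) (A := A) v.1) (by
    intro u v h x y
    exact of_comm (Γ := Γ) (A := A) h _ _)

theorem incl_of (v : V' s) (x : A v.1) :
    incl Γ A s (GP.of (Γ := Γ' Γ s) (A := A' A s) v x) = GP.of (Γ := Γ) (A := A) v.1 x :=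
  GP.lift_of _ _ _ _

theorem incl_comm {p : W' Γ A s} (hp : p ∈ P' Γ A s) (k : A s) :
    incl Γ A s p * GP.of (Γ := Γ) (A := A) s k = GP.of (Γ := Γ) (A := A) s k * incl Γ A s p := by
  refine sub_induction (p := fun p => incl Γ A s p * GP.of (Γ := Γ) (A := A) s k =
    GP.of (Γ := Γ) (A := A) s k * incl Γ A s p) hp (by simp) ?_
  intro g v x hv _ ih
  have hx : incl Γ A s (GP.of v x) * GP.of (Γ := Γ) (A := A) s k =
      GP.of (Γ := Γ) (A := A) s k * incl Γ A s (GP.of v x) := by
    rw [incl_of]
    exact (of_comm (Γ := Γ) (A := A) hv _ _).symm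
  rw [map_mul, mul_assoc, hx, ← mul_assoc, ih, mul_assoc]

theorem out_conj (w : W' Γ A s) (k : A s) :
    incl Γ A s (Quotient.out (w : Om Γ A s)) * GP.of (Γ := Γ) (A := A) s k *
      (incl Γ A s (Quotient.out (w : Om Γ A s)))⁻¹ =
    incl Γ A s w * GP.of (Γ := Γ) (A := A) s k * (incl Γ A s w)⁻¹ := by
  obtain ⟨p, hp⟩ := QuotientGroup.mk_out_eq_mul (P' Γ A s) w
  rw [hp, map_mul]
  have := incl_comm Γ A s p.2 k
  rw [mul_assoc (incl Γ A s w), this, mul_inv_rev]
  group

/-- the map on the free product -/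
noncomputable def thetaN : FPK (Om Γ A s) (A s) →* GraphProd Γ A :=
  liftF (fun κ => ((MulAut.conj (incl Γ A s (Quotient.out κ))).toMonoidHom).comp
    (GP.of (Γ := Γ) (A := A) s))

theorem thetaN_fac (w : W' Γ A s) (k : A s) : thetaN Γ A s (fac (w : Om Γ A s) k) =
    incl Γ A s w * GP.of (Γ := Γ) (A := A) s k * (incl Γ A s w)⁻¹ := by
  unfold thetaN
  rw [liftF_fac]
  exact out_conj Γ A s w k

/-- the left inverse -/
noncomputable def theta : SD Γ A s →* GraphProd Γ A :=
  SemidirectProduct.lift (thetaN Γ A s) (incl Γ A s) (by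
    intro g
    apply extF
    intro κ k
    obtain ⟨w, rfl⟩ := QuotientGroup.mk_surjective κ
    simp only [MonoidHom.comp_apply, MulEquiv.coe_toMonoidHom]
    rw [phi'_fac, thetaN_fac, MulAut.conj_apply]
    show thetaN Γ A s (fac ((g * w : W' Γ A s) : Om Γ A s) k) = _
    rw [thetaN_fac, map_mul]
    group)

theorem theta_Psi : (theta Γ A s).comp (Psi Γ A s) = MonoidHom.id _ := by
  apply hom_ext
  intro v x
  rw [MonoidHom.comp_apply]
  unfold Psi
  rw [GP.lift_of]
  by_cases h : v = s
  · subst h
    rw [psiV_self]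
    unfold psiS theta
    rw [MonoidHom.comp_apply, SemidirectProduct.lift_inl, thetaN_fac, map_one]
    simp
  · rw [psiV_ne Γ A s v h]
    unfold psiO theta
    rw [MonoidHom.comp_apply, SemidirectProduct.lift_inr, incl_of]
    rfl

theorem DV_step {m : ℕ} (h : DV m (W' Γ A s)) : DV (Nat.card (A s) * m) (GraphProd Γ A) := by
  refine DV_inj (Psi Γ A s) ?_ (DV_semidirect (DV_FPK ((1 : W' Γ A s) : Om Γ A s)) h)
  intro x y hxy
  have := congrArg (theta Γ A s) hxy
  rw [← MonoidHom.comp_apply, ← MonoidHom.comp_apply, theta_Psi] at this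
  exact this

end step

/-- **Finite subgroups of graph products.** -/
theorem DV_graphProd : ∀ (n : ℕ) (V : Type) [Fintype V] (Γ : SimpleGraph V) (A : V → Type)
    [∀ v, Group (A v)], Fintype.card V = n → DV (∏ v, Nat.card (A v)) (GraphProd Γ A) := by
  intro n
  induction n with
  | zero =>
    intro V _ Γ A _ hV N hN
    have hemp : IsEmpty V := Fintype.card_eq_zero_iff.mp hV
    have htriv : ∀ h : GraphProd Γ A, h = 1 := by
      intro h
      induction h using induction_right with
      | h1 => rfl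
      | hm g v x ih => exact (hemp.false v).elim
    have : N = ⊥ := by
      rw [Subgroup.eq_bot_iff_forall]
      intro x _
      exact htriv x
    subst this
    simp
  | succ n ih =>
    intro V _ Γ A _ hV
    classical
    have hne : Nonempty V := by
      rw [← Fintype.card_pos_iff, hV]
      omega
    obtain ⟨s⟩ := hne
    have h1 := ih (V' s) (Γ' Γ s) (A' A s) (by
      rw [Fintype.card_subtype_compl, Fintype.card_subtype_eq, hV]
      rfl)
    have h2 := DV_step Γ A s h1
    have h3 : ∏ v, Nat.card (A v) = Nat.card (A s) * ∏ v : V' s, Nat.card (A' A s v) := by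
      rw [← Finset.mul_prod_erase Finset.univ (fun v => Nat.card (A v)) (Finset.mem_univ s)]
      congr 1
      exact Finset.prod_subtype (Finset.univ.erase s) (by simp) (fun v => Nat.card (A v))
    rw [h3]
    exact h2

end Pool.Agent.KS6_42.GQ
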