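import Pool.Agent.KS6_42.GQ.Tree
import Pool.Agent.KS6_42.GQ.Tors

set_option autoImplicit false

/-!
# Graph products of finite groups acting on a system of lines and pages
-/

namespace Pool.Agent.KS6_42.GQ

open Multiplicative GP WA

namespace WA

variable [Par] {W : Type} [Group W] {T : Set W} (Z : WA W T)

theorem inv_smul_ne {x : W} {ω : Z.Λ} (h : x • ω ≠ ω) : x⁻¹ • ω ≠ ω := by
  intro h'
  apply h
  rw [← h', smul_inv_smul, h']

/-- A torsion element moves a line to the same side as its inverse. -/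
theorem c1 {x : W} (hx : IsOfFinOrder x) {ω : Z.Λ} (h : x • ω ≠ ω) :
    Z.pgL ω (x • ω) = Z.pgL ω (x⁻¹ • ω) := by
  by_contra hne
  have key : ∀ k : ℕ, x ^ (k + 1) • ω ≠ ω ∧ Z.pgL ω (x ^ (k + 1) • ω) = Z.pgL ω (x • ω) := by
    intro k
    induction k with
    | zero => rw [zero_add, pow_one]; exact ⟨h, rfl⟩
    | succ k ih =>
      obtain ⟨i1, i2⟩ := ih
      have e1 := Z.pgL_smul x ω _ i1
      have e2 := Z.pgL_smul x ω _ (Z.inv_smul_ne h)
      rw [smul_inv_smul] at e2
      have hb : x • x ^ (k + 1) • ω = x ^ (k + 1 + 1) • ω := by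
        rw [← mul_smul, ← pow_succ']
      have k1 : Z.pgL (x • ω) ω ≠ Z.pgL (x • ω) (x • x ^ (k + 1) • ω) := by
        rw [← e1, ← e2, i2]
        intro h'
        exact hne (smul_left_cancel _ h').symm
      have n1 : x • x ^ (k + 1) • ω ≠ ω := by
        intro h'
        rw [h'] at k1
        exact k1 rfl
      have n2 : x • x ^ (k + 1) • ω ≠ x • ω := fun h' => i1 (smul_left_cancel _ h')
      have m1 := Z.sepr (x • ω) ω (x • x ^ (k + 1) • ω) (Ne.symm h) n2 k1
      rw [hb] at n1 m1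
      exact ⟨n1, m1.symm⟩
  obtain ⟨k, hk, hk'⟩ := isOfFinOrder_iff_pow_eq_one.mp hx
  have := (key (k - 1)).1
  rw [Nat.sub_add_cancel hk, hk', one_smul] at this
  exact this rfl

/-- Two elements of a torsion group move a line to the same side. -/
theorem c2 {x y : W} (hx : IsOfFinOrder x) (hy : IsOfFinOrder y) (hxy : IsOfFinOrder (x * y))
    {ω : Z.Λ} (h1 : x • ω ≠ ω) (h2 : y • ω ≠ ω) : Z.pgL ω (x • ω) = Z.pgL ω (y • ω) := by
  by_contra hne
  have c1x := Z.c1 hx h1
  have c1y := Z.c1 hy h2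
  have h1' := Z.inv_smul_ne h1
  have k : Z.pgL ω (x⁻¹ • ω) ≠ Z.pgL ω (y • ω) := by rw [← c1x]; exact hne
  have hab : x⁻¹ • ω ≠ y • ω := fun h => k (by rw [h])
  have s1 := Z.sepr ω (x⁻¹ • ω) (y • ω) h1' h2 k
  have s2 := Z.sepr ω (y • ω) (x⁻¹ • ω) h2 h1' k.symm
  have f1 : Z.pgL ω (x • ω) = Z.pgL ω ((x * y) • ω) := by
    have e1 := Z.pgL_smul x (x⁻¹ • ω) ω h1'.symm
    have e2 := Z.pgL_smul x (x⁻¹ • ω) (y • ω) hab.symm
    rw [smul_inv_smul] at e1 e2
    rw [← e1, mul_smul, ← e2, s1]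
  have f2 : Z.pgL ω (y⁻¹ • ω) = Z.pgL ω ((x * y)⁻¹ • ω) := by
    have e1 := Z.pgL_smul y⁻¹ (y • ω) ω h2.symm
    have e2 := Z.pgL_smul y⁻¹ (y • ω) (x⁻¹ • ω) hab
    rw [inv_smul_smul] at e1 e2
    rw [← e1, mul_inv_rev, mul_smul, ← e2, s2]
  have hne' : (x * y) • ω ≠ ω := by
    intro h
    apply hab
    rw [mul_smul] at h
    rw [inv_smul_eq_iff]
    exact h.symm
  have f3 := Z.c1 hxy hne'
  apply hne
  rw [f1, f3, ← f2, c1y]

end WA

namespace Gpr

variable {V : Type} {Γ : SimpleGraph V} {B : V → Type} [∀ v, Group (B v)] [∀ v, Finite (B v)]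

omit [∀ v, Finite (B v)] in
theorem fo [∀ v, Finite (B v)] (v : V) (x : B v) : IsOfFinOrder (GP.of v x : GraphProd Γ B) :=
  (GP.of v : B v →* GraphProd Γ B).isOfFinOrder (isOfFinOrder_of_finite x)

theorem invol : Subgroup.closure {s : GraphProd Γ B | IsOfFinOrder s} = ⊤ := by
  rw [eq_top_iff]
  intro w _
  induction w using induction_right with
  | h1 => exact one_mem _
  | hm w v x ih => exact mul_mem (ih trivial) (Subgroup.subset_closure (fo v x))

variable [Par] (Z : WA (GraphProd Γ B) (gens Set.univ))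

/-- vertices on the positive side -/
def Sp (e : Z.E) : Set V := {v | ∃ x : B v, (GP.of v x : GraphProd Γ B) • Z.ln e ≠ Z.ln e ∧
  Z.pgL (Z.ln e) ((GP.of v x : GraphProd Γ B) • Z.ln e) = e}

/-- vertices fixing the page -/
def S0 (e : Z.E) : Set V := {v | ∀ x : B v, (GP.of v x : GraphProd Γ B) • e = e}

variable {Z}

theorem cv1 {v : V} (x : B v) {ω : Z.Λ} (h : (GP.of v x : GraphProd Γ B) • ω ≠ ω) :
    Z.pgL ω ((GP.of v x : GraphProd Γ B) • ω) = Z.pgL ω ((GP.of v x : GraphProd Γ B)⁻¹ • ω) :=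
  Z.c1 (fo v x) h

theorem cv2 {v : V} (x y : B v) {ω : Z.Λ} (h1 : (GP.of v x : GraphProd Γ B) • ω ≠ ω)
    (h2 : (GP.of v y : GraphProd Γ B) • ω ≠ ω) :
    Z.pgL ω ((GP.of v x : GraphProd Γ B) • ω) = Z.pgL ω ((GP.of v y : GraphProd Γ B) • ω) :=
  Z.c2 (fo v x) (fo v y) (by rw [← map_mul]; exact fo v _) h1 h2

theorem cv3 {v : V} (x y : B v) {ω : Z.Λ} (h1 : (GP.of v x : GraphProd Γ B) • ω ≠ ω)
    (h2 : (GP.of v y : GraphProd Γ B) • ω = ω) :
    (GP.of v y : GraphProd Γ B) • Z.pgL ω ((GP.of v x : GraphProd Γ B) • ω) =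
      Z.pgL ω ((GP.of v x : GraphProd Γ B) • ω) := by
  rw [Z.pgL_smul _ _ _ h1, h2, ← mul_smul, ← map_mul]
  apply cv2
  · rw [map_mul, mul_smul]
    intro h
    exact h1 (smul_left_cancel (GP.of v y : GraphProd Γ B) (h.trans h2.symm))
  · exact h1

theorem Sp_pg {e : Z.E} {v : V} (hv : v ∈ Sp Z e) {y : B v}
    (hy : (GP.of v y : GraphProd Γ B) • Z.ln e ≠ Z.ln e) :
    Z.pgL (Z.ln e) ((GP.of v y : GraphProd Γ B) • Z.ln e) = e := by
  obtain ⟨x, hx, hx'⟩ := hv
  rw [cv2 y x hy hx, hx']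

theorem Sp_fix {e : Z.E} {v : V} (hv : v ∈ Sp Z e) {y : B v}
    (hy : (GP.of v y : GraphProd Γ B) • Z.ln e = Z.ln e) : (GP.of v y : GraphProd Γ B) • e = e := by
  obtain ⟨x, hx, hx'⟩ := hv
  have := cv3 x y hx hy
  rwa [hx'] at this

omit [∀ v, Finite (B v)] in
theorem ln_of_fix {e : Z.E} {w : GraphProd Γ B} (h : w • e = e) : w • Z.ln e = Z.ln e := by
  rw [← Z.ln_smul, h]

omit [∀ v, Finite (B v)] in
theorem Sp_not_S0 {e : Z.E} {v : V} (hv : v ∈ Sp Z e) : v ∉ S0 Z e := by
  intro h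
  obtain ⟨x, hx, -⟩ := hv
  exact hx (ln_of_fix (h x))

theorem exists_both : ∃ e : Z.E, (∀ e1 e2, Z.ln e1 = Z.ln e → Z.ln e2 = Z.ln e → Z.eqv e1 e2) ∧
    (∃ s, s ∈ Sp Z e) ∧ (∃ t, t ∉ Sp Z e ∧ t ∉ S0 Z e) := by
  obtain ⟨ω0, h0⟩ := Z.exists_transitive invol
  by_contra hcon
  push Not at hcon
  have htr : ∀ (w : GraphProd Γ B) e1 e2, Z.ln e1 = w • ω0 → Z.ln e2 = w • ω0 → Z.eqv e1 e2 := by
    intro w e1 e2 h1 h2
    have h3 := h0 (w⁻¹ • e1) (w⁻¹ • e2) (by rw [Z.ln_smul, h1, inv_smul_smul])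
      (by rw [Z.ln_smul, h2, inv_smul_smul])
    obtain ⟨w', hw'⟩ := h3
    refine ⟨w * w' * w⁻¹, ?_⟩
    rw [mul_smul, mul_smul, hw', smul_inv_smul]
  let Pr : Z.Λ → Z.E → Prop := fun ω e => Z.ln e = ω ∧ ∀ t, t ∈ Sp Z e ∨ t ∈ S0 Z e
  have hmove : ∀ ω : Z.Λ, ∃ v, ∃ x : B v, (GP.of v x : GraphProd Γ B) • ω ≠ ω := by
    intro ω
    by_contra hv
    push Not at hv
    obtain ⟨w, hw⟩ := Z.nofix ω
    apply hw
    clear hw
    induction w using induction_right with
    | h1 => exact one_smul _ _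
    | hm w v x ih => rw [mul_smul, hv, ih]
  have hex : ∀ w : GraphProd Γ B, ∃ e, Pr (w • ω0) e := by
    intro w
    obtain ⟨v, x, hv⟩ := hmove (w • ω0)
    have hln := Z.ln_pgL (w • ω0) _ hv
    refine ⟨Z.pgL (w • ω0) ((GP.of v x : GraphProd Γ B) • w • ω0), hln, ?_⟩
    intro t
    have h1 := hcon (Z.pgL (w • ω0) ((GP.of v x : GraphProd Γ B) • w • ω0)) (by
      intro e1 e2 h1 h2
      rw [hln] at h1 h2
      exact htr w e1 e2 h1 h2) ⟨v, x, by
        refine ⟨?_, ?_⟩
        · rw [hln]; exact hv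
        · rw [hln]⟩ t
    by_cases ht : t ∈ Sp Z (Z.pgL (w • ω0) ((GP.of v x : GraphProd Γ B) • w • ω0))
    · exact Or.inl ht
    · exact Or.inr (h1 ht)
  have huniq : ∀ ω e e', Pr ω e → Pr ω e' → e = e' := by
    intro ω e e' h1 h2
    obtain ⟨v, x, hv⟩ := hmove ω
    have key : ∀ e, Pr ω e → Z.pgL ω ((GP.of v x : GraphProd Γ B) • ω) = e := by
      rintro e ⟨rfl, h⟩
      rcases h v with h3 | h3
      · exact Sp_pg h3 hv
      · exact absurd (ln_of_fix (h3 x)) hv
    rw [← key e h1, ← key e' h2]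
  have hgen : ∀ (w : GraphProd Γ B) (s : V) (x : B s) e, Pr (w • ω0) e →
      Pr ((GP.of s x : GraphProd Γ B) • w • ω0) ((GP.of s x : GraphProd Γ B) • e) := by
    intro w s x e he
    obtain ⟨e'', he''⟩ := hex ((GP.of s x : GraphProd Γ B) * w)
    rw [mul_smul] at he''
    have : (GP.of s x : GraphProd Γ B) • e = e'' := by
      obtain ⟨he1, he2⟩ := he
      by_cases hs : (GP.of s x : GraphProd Γ B) • w • ω0 = w • ω0
      · rw [hs] at he''
        have h1 := huniq _ _ _ ⟨he1, he2⟩ he''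
        rw [← he1] at hs
        rcases he2 s with h2 | h2
        · rw [Sp_fix h2 hs, h1]
        · rw [h2 x, h1]
      · have hs0 : (GP.of s x : GraphProd Γ B) • Z.ln e ≠ Z.ln e := by rw [he1]; exact hs
        have h1 : Z.pgL (Z.ln e) ((GP.of s x : GraphProd Γ B) • Z.ln e) = e := by
          rcases he2 s with h2 | h2
          · exact Sp_pg h2 hs0
          · exact absurd (ln_of_fix (h2 x)) hs0
        have hl : Z.ln e'' = (GP.of s x : GraphProd Γ B) • Z.ln e := by rw [he''.1, he1]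
        have hs' : (GP.of s x⁻¹ : GraphProd Γ B) • Z.ln e'' ≠ Z.ln e'' := by
          rw [hl, map_inv, inv_smul_smul]; exact fun h => hs0 h.symm
        have h2 : Z.pgL (Z.ln e'') ((GP.of s x⁻¹ : GraphProd Γ B) • Z.ln e'') = e'' := by
          rcases he''.2 s with h2 | h2
          · exact Sp_pg h2 hs'
          · exact absurd (ln_of_fix (h2 x⁻¹)) hs'
        rw [hl, map_inv, inv_smul_smul] at h2
        have h3 := Z.pgL_smul (GP.of s x : GraphProd Γ B) _ _ (Z.inv_smul_ne hs0)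
        rw [smul_inv_smul, ← cv1 x hs0, h1] at h3
        rw [h3, h2]
    rw [this]
    exact he''
  have hall : ∀ (w w' : GraphProd Γ B) e, Pr (w' • ω0) e → Pr (w • w' • ω0) (w • e) := by
    intro w
    induction w using induction_right with
    | h1 => intro w' e h; rw [one_smul, one_smul]; exact h
    | hm w v x ih =>
      intro w' e h
      rw [mul_smul, mul_smul]
      have h1 := hgen w' v x e h
      rw [← mul_smul] at h1
      have h2 := ih ((GP.of v x : GraphProd Γ B) * w') _ h1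
      rwa [mul_smul (GP.of v x : GraphProd Γ B) w' ω0] at h2
  obtain ⟨e0, he0⟩ := hex 1
  rw [one_smul] at he0
  have hfix : ∀ w : GraphProd Γ B, w • ω0 = ω0 → w • e0 = e0 := by
    intro w hw
    have h1 := hall w 1 e0 (by rw [one_smul]; exact he0)
    rw [one_smul, hw] at h1
    exact huniq _ _ _ h1 he0
  have hother : ∃ e', Z.ln e' = ω0 ∧ e' ≠ e0 := by
    by_contra h
    push Not at h
    have : {e | Z.ln e = ω0} ⊆ {e0} := fun e he => h e he
    have h2 := Set.ncard_le_ncard this (Set.finite_singleton e0)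
    rw [Set.ncard_singleton] at h2
    have h3 := Z.fiber ω0
    have h4 := Par.hp
    have h5 := Par.hq
    omega
  obtain ⟨e', he', hne⟩ := hother
  obtain ⟨w, hw⟩ := h0 e0 e' he0.1 he'
  apply hne
  rw [← hw]
  apply hfix
  have := congrArg Z.ln hw
  rw [Z.ln_smul, he0.1, he'] at this
  exact this

theorem not_adj {e : Z.E} {s t : V} (hs : s ∈ Sp Z e) (ht : t ∉ Sp Z e) (ht' : t ∉ S0 Z e) :
    ¬ Γ.Adj s t := by
  intro hadj
  obtain ⟨x, hs1, hs2⟩ := hs
  have hc : ∀ y : B t, (GP.of s x : GraphProd Γ B) * GP.of t y = GP.of t y * GP.of s x :=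
    fun y => of_comm hadj _ _
  have hcΛ : ∀ (y : B t) (ω : Z.Λ), (GP.of s x : GraphProd Γ B) • (GP.of t y : GraphProd Γ B) • ω =
      (GP.of t y : GraphProd Γ B) • (GP.of s x : GraphProd Γ B) • ω := by
    intro y ω
    rw [← mul_smul, ← mul_smul, hc]
  by_cases h1 : ∀ y : B t, (GP.of t y : GraphProd Γ B) • Z.ln e = Z.ln e
  · apply ht'
    intro y
    have h2 := Z.pgL_smul (GP.of t y : GraphProd Γ B) (Z.ln e)
      ((GP.of s x : GraphProd Γ B) • Z.ln e) hs1
    rw [hs2, h1, ← hcΛ, h1, hs2] at h2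
    exact h2
  · push Not at h1
    obtain ⟨y, h1⟩ := h1
    have h2 : Z.pgL (Z.ln e) ((GP.of t y : GraphProd Γ B) • Z.ln e) ≠ e := fun h => ht ⟨y, h1, h⟩
    have p1 := cv1 x hs1
    have p2 := cv1 y h1
    set ω := Z.ln e with hω
    set X : GraphProd Γ B := GP.of s x with hX
    set Y : GraphProd Γ B := GP.of t y with hY
    have hst : X • Y • ω ≠ X • ω := fun h => h1 (smul_left_cancel _ h)
    have hts : Y • X • ω ≠ Y • ω := fun h => hs1 (smul_left_cancel _ h)
    -- first separation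
    have e1 := Z.pgL_smul X ω _ (Z.inv_smul_ne hs1)
    have e2 := Z.pgL_smul X ω (Y • ω) h1
    rw [smul_inv_smul, ← p1, hs2] at e1
    have k1 : Z.pgL (X • ω) ω ≠ Z.pgL (X • ω) (X • Y • ω) := by
      rw [← e1, ← e2]
      intro h
      exact h2 (smul_left_cancel _ h).symm
    have m1 := Z.sepr (X • ω) ω (X • Y • ω) (Ne.symm hs1) hst k1
    -- second separation
    have e3 := Z.pgL_smul Y ω _ (Z.inv_smul_ne h1)
    have e4 := Z.pgL_smul Y ω (X • ω) hs1
    rw [smul_inv_smul, ← p2] at e3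
    rw [hs2] at e4
    have k2 : Z.pgL (Y • ω) ω ≠ Z.pgL (Y • ω) (Y • X • ω) := by
      rw [← e3, ← e4]
      intro h
      exact h2 (smul_left_cancel _ h)
    have m2 := Z.sepr (Y • ω) ω (Y • X • ω) (Ne.symm h1) hts k2
    apply h2
    have hcc : Y • X • ω = X • Y • ω := (hcΛ y ω).symm
    rw [m2, hcc, ← m1, hs2]


omit [Par] in
theorem finite_clique [Finite V] (T : Set V) (hT : ∀ u ∈ T, ∀ v ∈ T, u ≠ v → Γ.Adj u v) :
    ((sub T : Subgroup (GraphProd Γ B)) : Set (GraphProd Γ B)).Finite := by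
  have hfin := Set.toFinite T
  refine Set.Finite.induction_on_subset
    (motive := fun T' _ => ((sub T' : Subgroup (GraphProd Γ B)) : Set (GraphProd Γ B)).Finite)
    T hfin ?_ ?_
  · rw [sub_empty]; exact Set.finite_singleton 1
  · intro v T' hv hT' hv' ih
    have hsing : ((sub {v} : Subgroup (GraphProd Γ B)) : Set (GraphProd Γ B)).Finite := by
      have : ((sub {v} : Subgroup (GraphProd Γ B)) : Set (GraphProd Γ B)) ⊆
          Set.range (fun x : B v => (GP.of v x : GraphProd Γ B)) := by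
        intro y hy
        obtain ⟨x, hx⟩ := sub_singleton hy
        exact ⟨x, hx.symm⟩
      exact (Set.finite_range _).subset this
    refine (ih.image2 (fun a b => a * b) hsing).subset ?_
    intro y hy
    have := decomp (fun u hu => hT v hv u (hT' hu) (fun h => hv' (h ▸ hu))) hy
    exact ⟨_, retr_mem _ _, _, retr_mem _ _, this.symm⟩

section alternating

omit [Par] [∀ v, Finite (B v)]

theorem neWord_ne_one {i j : V} (w : Monoid.CoprodI.NeWord B i j) : w.prod ≠ 1 := by
  classical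
  intro h
  have h1 : w.toWord = Monoid.CoprodI.Word.empty := by
    apply Monoid.CoprodI.Word.equiv.symm.injective
    show w.toWord.prod = Monoid.CoprodI.Word.empty.prod
    rw [Monoid.CoprodI.Word.prod_empty]
    exact h
  have h2 := congrArg Monoid.CoprodI.Word.toList h1
  exact w.toList_ne_nil h2

theorem alt_word {s t : V} (hst : s ≠ t) {x : B s} {y : B t} (hx : x ≠ 1) (hy : y ≠ 1) (k : ℕ) :
    ∃ w : Monoid.CoprodI.NeWord B s t,
      w.prod = (Monoid.CoprodI.of x * Monoid.CoprodI.of y) ^ (k + 1) := by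
  induction k with
  | zero =>
    refine ⟨.append (.singleton x hx) hst (.singleton y hy), ?_⟩
    simp
  | succ k ih =>
    obtain ⟨w, hw⟩ := ih
    refine ⟨.append w hst.symm (.append (.singleton x hx) hst (.singleton y hy)), ?_⟩
    rw [Monoid.CoprodI.NeWord.append_prod, hw, Monoid.CoprodI.NeWord.append_prod,
      Monoid.CoprodI.NeWord.prod_singleton, Monoid.CoprodI.NeWord.prod_singleton, ← pow_succ]

open Classical in
theorem exists_psi {s t : V} (hadj : ¬ Γ.Adj s t) :
    ∃ ψ : GraphProd Γ B →* Monoid.CoprodI B, (∀ x, ψ (GP.of s x) = Monoid.CoprodI.of x) ∧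
      (∀ y, ψ (GP.of t y) = Monoid.CoprodI.of y) ∧
      ∀ z, z ≠ s → z ≠ t → ∀ x, ψ (GP.of z x) = 1 := by
  refine ⟨GP.lift (fun z => if z = s ∨ z = t then Monoid.CoprodI.of else 1) ?_, ?_, ?_, ?_⟩
  · intro a b hab x y
    by_cases h1 : a = s ∨ a = t
    · have h2 : ¬ (b = s ∨ b = t) := by
        rintro (rfl | rfl)
        · rcases h1 with rfl | rfl
          · exact Γ.loopless.irrefl _ hab
          · exact hadj hab.symm
        · rcases h1 with rfl | rfl
          · exact hadj hab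
          · exact Γ.loopless.irrefl _ hab
      rw [if_neg h2]
      simp
    · rw [if_neg h1]
      simp
  · intro x
    simp
  · intro y
    simp
  · intro z hz1 hz2 x
    have : ¬ (z = s ∨ z = t) := by
      rintro (h | h)
      · exact hz1 h
      · exact hz2 h
    rw [GP.lift_of, if_neg this]
    rfl

variable {s t : V} {ψ : GraphProd Γ B →* Monoid.CoprodI B}

theorem psi_alt1 (hst : s ≠ t) (h1 : ∀ x, ψ (GP.of s x) = Monoid.CoprodI.of x)
    (h2 : ∀ y, ψ (GP.of t y) = Monoid.CoprodI.of y) {x : B s} {y : B t} (hx : x ≠ 1) (hy : y ≠ 1)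
    (k : ℕ) : ψ (((GP.of s x : GraphProd Γ B) * GP.of t y) ^ (k + 1)) ≠ 1 := by
  obtain ⟨w, hw⟩ := alt_word hst hx hy k
  rw [map_pow, map_mul, h1, h2, ← hw]
  exact neWord_ne_one w

theorem psi_alt2 (hst : s ≠ t) (h1 : ∀ x, ψ (GP.of s x) = Monoid.CoprodI.of x)
    (h2 : ∀ y, ψ (GP.of t y) = Monoid.CoprodI.of y) {x : B s} {y : B t} (hx : x ≠ 1) (hy : y ≠ 1)
    (k : ℕ) : ψ (((GP.of s x : GraphProd Γ B) * GP.of t y) ^ k * GP.of s x) ≠ 1 := by
  rw [map_mul, map_pow, map_mul, h1, h2]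
  cases k with
  | zero =>
    rw [pow_zero, one_mul, ← Monoid.CoprodI.NeWord.prod_singleton x hx]
    exact neWord_ne_one _
  | succ k =>
    obtain ⟨w, hw⟩ := alt_word hst hx hy k
    rw [← hw, ← Monoid.CoprodI.NeWord.prod_singleton x hx,
      ← Monoid.CoprodI.NeWord.append_prod (hne := hst.symm)]
    exact neWord_ne_one _

theorem psi_inj (hst : s ≠ t) (h1 : ∀ x, ψ (GP.of s x) = Monoid.CoprodI.of x)
    (h2 : ∀ y, ψ (GP.of t y) = Monoid.CoprodI.of y) {x : B s} {y : B t} (hx : x ≠ 1) (hy : y ≠ 1) :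
    Function.Injective (fun k : ℕ => ((GP.of s x : GraphProd Γ B) * GP.of t y) ^ k) := by
  have key : ∀ a d : ℕ, ((GP.of s x : GraphProd Γ B) * GP.of t y) ^ a =
      ((GP.of s x : GraphProd Γ B) * GP.of t y) ^ (a + (d + 1)) → False := by
    intro a d h
    rw [pow_add] at h
    have h' := mul_eq_left.mp h.symm
    apply psi_alt1 hst h1 h2 hx hy d
    rw [h', map_one]
  intro a b h
  have h' : ((GP.of s x : GraphProd Γ B) * GP.of t y) ^ a =
    ((GP.of s x : GraphProd Γ B) * GP.of t y) ^ b := h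
  rcases lt_trichotomy a b with hab | hab | hab
  · exfalso
    obtain ⟨d, rfl⟩ : ∃ d, b = a + (d + 1) := ⟨b - a - 1, by omega⟩
    exact key a d h'
  · exact hab
  · exfalso
    obtain ⟨d, rfl⟩ : ∃ d, a = b + (d + 1) := ⟨a - b - 1, by omega⟩
    exact key b d h'.symm

end alternating

/-- The line group fixing a page is infinite. -/
theorem sub_infinite [Finite V] {e : Z.E} {s t : V} (hs : s ∈ Sp Z e) (ht : t ∉ Sp Z e)
    (ht' : t ∉ S0 Z e) :
    ((sub (S0 Z e) : Subgroup (GraphProd Γ B)) : Set (GraphProd Γ B)).Infinite := by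
  classical
  intro hfin
  have hs0 : ∀ v, v ∈ Sp Z e → v ∉ S0 Z e := fun v hv => Sp_not_S0 hv
  have hstne : s ≠ t := by rintro rfl; exact ht hs
  have hnadj := not_adj hs ht ht'
  obtain ⟨x0, hx0, -⟩ := id hs
  have hx1 : x0 ≠ 1 := by
    rintro rfl
    rw [map_one, one_smul] at hx0
    exact hx0 rfl
  have hy : ∃ y : B t, (GP.of t y : GraphProd Γ B) • e ≠ e := by
    by_contra h
    push Not at h
    exact ht' h
  obtain ⟨y0, hy0⟩ := hy
  have hy1 : y0 ≠ 1 := by
    rintro rfl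
    rw [map_one, one_smul] at hy0
    exact hy0 rfl
  let F := Multiplicative (ZMod 2)
  let ι : GraphProd Γ B → F := fun w =>
    if w ∈ (sub (S0 Z e) : Subgroup (GraphProd Γ B)) then ofAdd 1 else 1
  have ιsq : ∀ w, ι w * ι w = 1 := by
    intro w
    have : ∀ x : Multiplicative (ZMod 2), x * x = 1 := by decide
    exact this _
  have ιinv : ∀ w (v : V) (x : B v), v ∈ S0 Z e → ι (w * GP.of v x) = ι w := by
    intro w v x hv
    have : w * GP.of v x ∈ (sub (S0 Z e) : Subgroup (GraphProd Γ B)) ↔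
        w ∈ (sub (S0 Z e) : Subgroup (GraphProd Γ B)) :=
      Subgroup.mul_mem_cancel_right _ (of_mem_sub hv x)
    simp only [ι, this]
  obtain ⟨χ, χ1, χ2⟩ := exists_potential (Γ := Γ) (A := B) (F := F)
    (fun v w x => if v ∈ Sp Z e then ι w * ι (w * GP.of v x) else 1) (by
      intro v w x y
      by_cases hv : v ∈ Sp Z e
      · simp only [if_pos hv]
        rw [map_mul, ← mul_assoc w]
        calc ι w * ι (w * GP.of v x * GP.of v y) =
            ι w * (ι (w * GP.of v x) * ι (w * GP.of v x)) * ι (w * GP.of v x * GP.of v y) := by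
              rw [ιsq, mul_one]
          _ = _ := by simp only [mul_assoc]
      · simp only [if_neg hv, mul_one]) (by
      intro a b hab w x y
      have hcomm : w * GP.of a x * GP.of b y = w * GP.of b y * GP.of a x := by
        rw [mul_assoc, mul_assoc, of_comm hab]
      by_cases ha : a ∈ Sp Z e
      · by_cases hb : b ∈ Sp Z e
        · simp only [if_pos ha, if_pos hb]
          calc ι w * ι (w * GP.of a x) * (ι (w * GP.of a x) * ι (w * GP.of a x * GP.of b y)) =
              ι w * (ι (w * GP.of a x) * ι (w * GP.of a x)) * ι (w * GP.of a x * GP.of b y) := by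
                simp only [mul_assoc]
            _ = ι w * (ι (w * GP.of b y) * ι (w * GP.of b y)) * ι (w * GP.of b y * GP.of a x) := by
                rw [ιsq, ιsq, hcomm]
            _ = _ := by simp only [mul_assoc]
        · have hb0 : b ∈ S0 Z e := by
            by_contra hb0
            exact not_adj ha hb hb0 hab
          simp only [if_pos ha, if_neg hb, mul_one, one_mul]
          rw [ιinv _ _ _ hb0, ← hcomm, ιinv _ _ _ hb0]
      · by_cases hb : b ∈ Sp Z e
        · have ha0 : a ∈ S0 Z e := by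
            by_contra ha0
            exact not_adj hb ha ha0 hab.symm
          simp only [if_pos hb, if_neg ha, mul_one, one_mul]
          rw [ιinv _ _ _ ha0, hcomm, ιinv _ _ _ ha0]
        · simp only [if_neg ha, if_neg hb])
  have χp : ∀ w (x : B s), χ (w * GP.of s x) = χ w * (ι w * ι (w * GP.of s x)) := by
    intro w x
    have := χ2 s w x
    rw [if_pos hs] at this
    exact this
  have χn : ∀ w (y : B t), χ (w * GP.of t y) = χ w := by
    intro w y
    have := χ2 t w y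
    rw [if_neg ht, mul_one] at this
    exact this
  -- finite boundary
  have hgfin : (gens Set.univ : Set (GraphProd Γ B)).Finite := gens_finite _
  have hbd : {w : GraphProd Γ B |
      ∃ y ∈ (gens Set.univ : Set (GraphProd Γ B)), χ (w * y) ≠ χ w}.Finite := by
    refine (hfin.union (hfin.image2 (fun a b => a * b⁻¹) hgfin)).subset ?_
    rintro w ⟨y, ⟨v, -, x, rfl⟩, hy⟩
    by_contra hw
    simp only [Set.mem_union, not_or] at hw
    apply hy
    rw [χ2]
    by_cases hv : v ∈ Sp Z e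
    · have h1 : ι w = 1 := if_neg hw.1
      have h2 : ι (w * GP.of v x) = 1 := by
        apply if_neg
        intro h
        exact hw.2 ⟨_, h, _, ⟨v, trivial, x, rfl⟩, by simp⟩
      simp only [if_pos hv]
      rw [h1, h2]; simp
    · simp only [if_neg hv]; simp
  obtain ⟨F0, hF0, hconst⟩ := Z.one F χ hbd
  -- the homomorphism to the free product
  obtain ⟨ψ, h1, h2, h3⟩ := exists_psi (Γ := Γ) (B := B) hnadj
  have hker : ∀ y ∈ (sub (S0 Z e) : Subgroup (GraphProd Γ B)), ψ y = 1 := by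
    intro y hy
    refine sub_induction (p := fun y => ψ y = 1) hy (map_one _) ?_
    intro y z x hz _ ih
    have hzs : z ≠ s := fun h => hs0 s hs (h ▸ hz)
    have hzt : z ≠ t := fun h => ht' (h ▸ hz)
    rw [map_mul, ih, h3 z hzs hzt, one_mul]
  set X : GraphProd Γ B := GP.of s x0 with hX
  set Y : GraphProd Γ B := GP.of t y0 with hY
  have n1 : ∀ k : ℕ, ψ ((X * Y) ^ (k + 1)) ≠ 1 := psi_alt1 hstne h1 h2 hx1 hy1
  have n2 : ∀ k : ℕ, ψ ((X * Y) ^ k * X) ≠ 1 := psi_alt2 hstne h1 h2 hx1 hy1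
  have n3 : ∀ k : ℕ, ψ ((Y * X) ^ (k + 1)) ≠ 1 := psi_alt1 hstne.symm h2 h1 hy1 hx1
  have n4 : ∀ k : ℕ, ψ ((Y * X) ^ k * Y) ≠ 1 := psi_alt2 hstne.symm h2 h1 hy1 hx1
  have ι1 : ι 1 = ofAdd 1 := if_pos (one_mem _)
  have ιn : ∀ w : GraphProd Γ B, ψ w ≠ 1 → ι w = 1 := fun w hw => if_neg (fun h => hw (hker w h))
  have val1 : ∀ k : ℕ, χ ((X * Y) ^ (k + 1)) = ofAdd 1 := by
    intro k
    induction k with
    | zero =>
      have : (X * Y) ^ (0 + 1) = 1 * X * Y := by simp
      have hn := n2 0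
      rw [pow_zero] at hn
      rw [this, χn, χp, χ1, ι1, one_mul, ιn _ hn, mul_one]
    | succ k ih =>
      have hn := n2 (k + 1)
      rw [pow_succ, ← mul_assoc, χn, χp, ih, ιn _ (n1 k), ιn _ hn]
      simp
  have val2 : ∀ k : ℕ, χ ((Y * X) ^ k) = 1 := by
    intro k
    induction k with
    | zero => rw [pow_zero, χ1]
    | succ k ih =>
      have hn := n3 k
      rw [pow_succ, ← mul_assoc] at hn
      rw [pow_succ, ← mul_assoc, χp, χn, ih, ιn _ (n4 k), ιn _ hn]
      simp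
  have inj1 : Function.Injective (fun k : ℕ => (X * Y) ^ (k + 1)) := by
    intro k k' h
    have := psi_inj hstne h1 h2 hx1 hy1 h
    omega
  have inj2 : Function.Injective (fun k : ℕ => (Y * X) ^ k) :=
    psi_inj hstne.symm h2 h1 hy1 hx1
  obtain ⟨_, ⟨k, rfl⟩, hk⟩ := (Set.infinite_range_of_injective inj1).exists_notMem_finite hF0
  obtain ⟨_, ⟨k', rfl⟩, hk'⟩ := (Set.infinite_range_of_injective inj2).exists_notMem_finite hF0
  have := hconst _ _ hk hk'
  simp only [val1, val2] at this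
  exact absurd this (by decide)

/-- **The main conclusion about the action.** -/
theorem exists_finite_subgroup [Finite V] (Z : WA (GraphProd Γ B) (gens Set.univ)) :
    ∃ N : Subgroup (GraphProd Γ B), Finite N ∧ (Par.p ∣ Nat.card N ∨ Par.q ∣ Nat.card N) := by
  classical
  obtain ⟨e, htr, ⟨s, hs⟩, ⟨t, ht, ht'⟩⟩ := exists_both (Z := Z)
  have hinf := sub_infinite hs ht ht'
  have huv : ∃ u ∈ S0 Z e, ∃ v ∈ S0 Z e, u ≠ v ∧ ¬ Γ.Adj u v ∧ (∃ x : B u, x ≠ 1) ∧
      (∃ y : B v, y ≠ 1) := by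
    by_contra hcon
    push Not at hcon
    apply hinf
    have hcl := finite_clique (Γ := Γ) (B := B) {v | v ∈ S0 Z e ∧ ∃ x : B v, x ≠ 1} (by
      rintro u ⟨hu, x, hx⟩ v ⟨hv, y, hy⟩ huv
      by_contra hadj
      exact hy (hcon u hu v hv huv hadj ⟨x, hx⟩ y))
    refine hcl.subset ?_
    intro g hg
    refine sub_induction (p := fun g => g ∈ (sub {v | v ∈ S0 Z e ∧ ∃ x : B v, x ≠ 1} :
      Subgroup (GraphProd Γ B))) hg (one_mem _) ?_
    intro g v x hv _ ih
    by_cases hx : x = 1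
    · rw [hx, map_one, mul_one]; exact ih
    · have hv' : v ∈ {v | v ∈ S0 Z e ∧ ∃ x : B v, x ≠ 1} := ⟨hv, x, hx⟩
      exact mul_mem ih (of_mem_sub hv' x)
  obtain ⟨u, hu, v, hv, huv, hadj, ⟨x0, hx0⟩, ⟨y0, hy0⟩⟩ := huv
  set ω := Z.ln e with hω
  -- the stabiliser of the line, and the finite kernel
  let N : Subgroup (GraphProd Γ B) :=
    MulAction.stabilizer (GraphProd Γ B) ω ⊓ (retr {u, v} : GraphProd Γ B →* GraphProd Γ B).ker
  have hDe : ∀ d ∈ (sub {u, v} : Subgroup (GraphProd Γ B)), d • e = e := by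
    intro d hd
    refine sub_induction (p := fun d => d • e = e) hd (one_smul _ _) ?_
    intro d z x hz _ ih
    have hz' : (GP.of z x : GraphProd Γ B) • e = e := by
      rcases hz with rfl | hz
      · exact hu x
      · rw [Set.mem_singleton_iff] at hz; subst hz; exact hv x
    rw [mul_smul, hz', ih]
  have hDω : ∀ d ∈ (sub {u, v} : Subgroup (GraphProd Γ B)), d • ω = ω := by
    intro d hd
    have := congrArg Z.ln (hDe d hd)
    rwa [Z.ln_smul] at this
  obtain ⟨ψ, h1, h2, h3⟩ := exists_psi (Γ := Γ) (B := B) hadj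
  set X : GraphProd Γ B := GP.of u x0 with hX
  set Y : GraphProd Γ B := GP.of v y0 with hY
  have hXm : X ∈ (sub {u, v} : Subgroup (GraphProd Γ B)) := of_mem_sub (by simp) x0
  have hYm : Y ∈ (sub {u, v} : Subgroup (GraphProd Γ B)) := of_mem_sub (by simp) y0
  have hXYinj : Function.Injective (fun k : ℕ => (X * Y) ^ k) := psi_inj huv h1 h2 hx0 hy0
  have hgfin : (gens Set.univ : Set (GraphProd Γ B)).Finite := gens_finite _
  have hNfin : (N : Set (GraphProd Γ B)).Finite := by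
    obtain ⟨C, hC⟩ := Z.stab ω
    have hbound : ∀ r : ℕ,
        {w : GraphProd Γ B | w ∈ N ∧ w ∈ Bl (gens Set.univ) (2 * r)}.ncard ≤ 4 * C := by
      intro r
      have hBf := Bl_finite hgfin (4 * r)
      let f : GraphProd Γ B × ℕ → GraphProd Γ B := fun p => p.1 * (X * Y) ^ p.2
      have hmap : f '' ({w : GraphProd Γ B | w ∈ N ∧ w ∈ Bl (gens Set.univ) (2 * r)} ×ˢ Set.Iic r) ⊆
          {w : GraphProd Γ B | w ∈ Bl (gens Set.univ) (4 * r) ∧ w • ω = ω} := by
        rintro _ ⟨⟨w, k⟩, ⟨⟨hw, hw'⟩, hk⟩, rfl⟩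
        simp only [Set.mem_Iic] at hk
        have hg1 : X * Y ∈ Bl (gens Set.univ : Set (GraphProd Γ B)) 2 :=
          mul_mem_Bl (gen_mem_Bl (show X ∈ (gens Set.univ : Set (GraphProd Γ B)) from
            ⟨u, Set.mem_univ _, x0, rfl⟩)) (gen_mem_Bl (show Y ∈ (gens Set.univ :
              Set (GraphProd Γ B)) from ⟨v, Set.mem_univ _, y0, rfl⟩))
        constructor
        · refine Bl_mono ?_ (mul_mem_Bl hw' (pow_mem_Bl hg1 k))
          omega
        · have hd : (X * Y) ^ k ∈ (sub {u, v} : Subgroup (GraphProd Γ B)) :=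
            pow_mem (mul_mem hXm hYm) k
          show (w * (X * Y) ^ k) • ω = ω
          rw [mul_smul, hDω _ hd]
          exact hw.1
      have hinj : Set.InjOn f
          ({w : GraphProd Γ B | w ∈ N ∧ w ∈ Bl (gens Set.univ) (2 * r)} ×ˢ Set.Iic r) := by
        rintro ⟨w, k⟩ ⟨⟨hw, -⟩, -⟩ ⟨w', k'⟩ ⟨⟨hw', -⟩, -⟩ h
        have h' : w * (X * Y) ^ k = w' * (X * Y) ^ k' := h
        have hρ := congrArg (retr {u, v}) h'
        have m1 : retr {u, v} w = 1 := hw.2
        have m2 : retr {u, v} w' = 1 := hw'.2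
        have hd : ∀ k : ℕ, retr {u, v} ((X * Y) ^ k) = (X * Y) ^ k := fun k =>
          retr_eq_self (pow_mem (mul_mem hXm hYm) k)
        rw [map_mul, map_mul, m1, m2, one_mul, one_mul, hd, hd] at hρ
        have hk : k = k' := hXYinj hρ
        subst hk
        rw [mul_right_cancel h']
      have hcount := Set.ncard_le_ncard hmap (hBf.subset (fun w hw => hw.1))
      rw [hinj.ncard_image, Set.ncard_prod] at hcount
      have hIic : (Set.Iic r).ncard = r + 1 := by
        rw [Set.ncard_eq_toFinset_card']; simp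
      rw [hIic] at hcount
      have hC' := hC (4 * r)
      have h5 : {w : GraphProd Γ B | w ∈ N ∧ w ∈ Bl (gens Set.univ) (2 * r)}.ncard * (r + 1) ≤
          (4 * C) * (r + 1) := by
        calc _ ≤ _ := hcount
          _ ≤ C * (4 * r + 1) := hC'
          _ ≤ (4 * C) * (r + 1) := by nlinarith
      exact Nat.le_of_mul_le_mul_right h5 (Nat.succ_pos r)
    by_contra hinf'
    obtain ⟨A, hA, hAc⟩ := Set.Infinite.exists_subset_card_eq hinf' (4 * C + 1)
    choose m hm using fun w : GraphProd Γ B => GP.exists_Bl w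
    have hsub : (A : Set (GraphProd Γ B)) ⊆
        {w : GraphProd Γ B | w ∈ N ∧ w ∈ Bl (gens Set.univ) (2 * (A.sup m))} := by
      intro w hw
      refine ⟨hA hw, Bl_mono ?_ (hm w)⟩
      have : m w ≤ A.sup m := Finset.le_sup (f := m) hw
      omega
    have hle := Set.ncard_le_ncard hsub ((Bl_finite hgfin _).subset (fun w hw => hw.2))
    rw [Set.ncard_coe_finset, hAc] at hle
    have := hbound (A.sup m)
    omega
  have : Finite N := hNfin
  -- transitivity
  have horb : MulAction.orbit N e = {e' | Z.ln e' = ω} := by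
    ext e'
    constructor
    · rintro ⟨w, rfl⟩
      show Z.ln (w.1 • e) = ω
      rw [Z.ln_smul]
      exact w.2.1
    · intro he'
      obtain ⟨w, hw⟩ := htr e e' rfl he'
      have hwω : w • ω = ω := by
        have := congrArg Z.ln hw
        rw [Z.ln_smul] at this
        rw [this]; exact he'
      set d := retr {u, v} w with hd
      have hdm : d ∈ (sub {u, v} : Subgroup (GraphProd Γ B)) := retr_mem _ _
      have hn : w * d⁻¹ ∈ N := by
        constructor
        · show (w * d⁻¹) • ω = ω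
          rw [mul_smul, hDω _ (inv_mem hdm), hwω]
        · show retr {u, v} (w * d⁻¹) = 1
          rw [map_mul, map_inv, ← hd, retr_eq_self hdm, mul_inv_cancel]
      refine ⟨⟨w * d⁻¹, hn⟩, ?_⟩
      show (w * d⁻¹) • e = e'
      rw [mul_smul, hDe _ (inv_mem hdm), hw]
  have hcard : (MulAction.orbit N e).ncard = Par.p ∨ (MulAction.orbit N e).ncard = Par.q := by
    rw [horb]; exact Z.fiber ω
  have hdvd : (MulAction.orbit N e).ncard ∣ Nat.card N := by
    rw [← MulAction.index_stabilizer]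
    exact Subgroup.index_dvd_card _
  refine ⟨N, this, ?_⟩
  rcases hcard with h | h
  · left; rwa [h] at hdvd
  · right; rwa [h] at hdvd

/-- one of the two parameters divides the product of the orders of the vertex groups -/
theorem dvd_prod [Fintype V] (Z : WA (GraphProd Γ B) (gens Set.univ)) :
    Par.p ∣ ∏ v, Nat.card (B v) ∨ Par.q ∣ ∏ v, Nat.card (B v) := by
  obtain ⟨N, hN, h⟩ := exists_finite_subgroup Z
  have h1 := DV_graphProd _ V Γ B rfl N hN
  rcases h with h | h
  · exact Or.inl (h.trans h1)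
  · exact Or.inr (h.trans h1)

end Gpr

end Pool.Agent.KS6_42.GQ
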