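import Mathlib

set_option autoImplicit false

/-!
# Definitions: graph products, quasi-isometries, the graph on twelve vertices
-/

namespace Pool.Agent.KS6_42.GQ

open Monoid

/-- The commutators of elements of adjacent vertex groups. -/
def rels {V : Type} (Γ : SimpleGraph V) (A : V → Type) [∀ v, Group (A v)] : Set (CoprodI A) :=
  {r : CoprodI A | ∃ u v : V, Γ.Adj u v ∧ ∃ (x : A u) (y : A v),
      r = CoprodI.of x * CoprodI.of y * (CoprodI.of x)⁻¹ * (CoprodI.of y)⁻¹}

/-- The graph product of the groups `A v` over the graph `Γ`: the quotient of the free product of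
the `A v` by the normal closure of all commutators of elements of adjacent vertex groups. -/
def GraphProd {V : Type} (Γ : SimpleGraph V) (A : V → Type) [∀ v, Group (A v)] : Type :=
  CoprodI A ⧸ Subgroup.normalClosure (rels Γ A)

instance {V : Type} (Γ : SimpleGraph V) (A : V → Type) [∀ v, Group (A v)] :
    Group (GraphProd Γ A) :=
  inferInstanceAs (Group (CoprodI A ⧸ Subgroup.normalClosure (rels Γ A)))

/-- The word length of `g` with respect to `S`: the least length of a word in the letters
`S ∪ S⁻¹` with value `g`. -/
noncomputable def wordLength {G : Type} [Group G] (S : Finset G) (g : G) : ℕ :=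
  sInf {n : ℕ | ∃ l : List G, l.length = n ∧ (∀ x ∈ l, x ∈ S ∨ x⁻¹ ∈ S) ∧ l.prod = g}

/-- The word metric with respect to `S`. -/
noncomputable def wordDist {G : Type} [Group G] (S : Finset G) (x y : G) : ℝ :=
  (wordLength S (x⁻¹ * y) : ℝ)

/-- `G` and `H` are quasi-isometric with respect to word metrics of some finite generating sets. -/
def QuasiIsometric (G H : Type) [Group G] [Group H] : Prop :=
  ∃ (S : Finset G) (T : Finset H), Subgroup.closure (S : Set G) = ⊤ ∧
    Subgroup.closure (T : Set H) = ⊤ ∧
    ∃ (f : G → H) (K C : ℝ), 1 ≤ K ∧ 0 ≤ C ∧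
      (∀ x y, K⁻¹ * wordDist S x y - C ≤ wordDist T (f x) (f y)) ∧
      (∀ x y, wordDist T (f x) (f y) ≤ K * wordDist S x y + C) ∧
      ∀ z, ∃ x, wordDist T (f x) z ≤ C

namespace Ex

/-- The twelve vertices: `inl (false, j)` (five of them), `inl (true, j)` (five of them), and the two
special ones `inr false`, `inr true`. -/
abbrev Vx : Type := (Bool × Fin 5) ⊕ Bool

/-- The index attached to a special vertex. -/
def ix (i : Bool) : Fin 5 := if i then 1 else 0

/-- Adjacency. -/
def adj : Vx → Vx → Bool
  | Sum.inl (b, j), Sum.inl (b', j') => (b != b') && !((j == j') && (j == 0 || j == 1))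
  | Sum.inl (_, j), Sum.inr i => j == ix i
  | Sum.inr i, Sum.inl (_, j) => j == ix i
  | Sum.inr _, Sum.inr _ => false

/-- The graph. -/
def Γ : SimpleGraph Vx where
  Adj a b := adj a b = true
  symm := by
    constructor
    intro a b
    revert a b
    decide
  loopless := by
    constructor
    intro a
    revert a
    decide

instance : DecidableRel Γ.Adj := fun a b => inferInstanceAs (Decidable (adj a b = true))

/-- The orders of the vertex groups: ten vertices of order two, the two special vertices of
orders `p` and `q`. -/
def orders (p q : ℕ) : Vx → ℕ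
  | Sum.inl _ => 2
  | Sum.inr false => p
  | Sum.inr true => q

end Ex

end Pool.Agent.KS6_42.GQ
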