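import Pool.Agent.KS6_42.GQ.Rep

set_option autoImplicit false

/-!
# Positive results: graph products quasi-isometric to right-angled Coxeter groups
-/

namespace Pool.Agent.KS6_42.GQ

open GP

/-- The right-angled Coxeter group of a simplicial graph. -/
abbrev Racg {V : Type} (Γ : SimpleGraph V) : Type := GraphProd Γ (fun _ => Multiplicative (ZMod 2))

section blow

variable {V : Type} (Γ : SimpleGraph V) (k : V → ℕ)

/-- the blown-up graph: the vertex `v` is replaced by a clique on `k v` vertices -/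
def blow : SimpleGraph (Σ v, Fin (k v)) where
  Adj a b := Γ.Adj a.1 b.1 ∨ (a.1 = b.1 ∧ a ≠ b)
  symm := by
    constructor
    rintro a b (h | ⟨h1, h2⟩)
    · exact Or.inl h.symm
    · exact Or.inr ⟨h1.symm, h2.symm⟩
  loopless := by
    constructor
    rintro a (h | ⟨-, h⟩)
    · exact Γ.loopless.irrefl _ h
    · exact h rfl

/-- elementary abelian vertex groups -/
abbrev EA : V → Type := fun v => Fin (k v) → Multiplicative (ZMod 2)

/-- a generator of the blown-up group -/
def bo (v : V) (i : Fin (k v)) : Multiplicative (ZMod 2) →* Racg (blow Γ k) :=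
  GP.of (Γ := blow Γ k) (A := fun _ => Multiplicative (ZMod 2)) ⟨v, i⟩

theorem bo_comm (v : V) : Pairwise fun i j => ∀ x y, Commute (bo Γ k v i x) (bo Γ k v j y) := by
  intro i j hij x y
  refine of_comm (Γ := blow Γ k) (A := fun _ => Multiplicative (ZMod 2)) (u := ⟨v, i⟩)
    (v := ⟨v, j⟩) (Or.inr ⟨rfl, ?_⟩) x y
  intro h
  apply hij
  simpa using h

/-- the vertex group in the blown-up group -/
noncomputable def bv (v : V) : EA k v →* Racg (blow Γ k) :=
  MonoidHom.noncommPiCoprod (bo Γ k v) (bo_comm Γ k v)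

theorem bv_single (v : V) (i : Fin (k v)) (x : Multiplicative (ZMod 2)) :
    bv Γ k v (Pi.mulSingle i x) = bo Γ k v i x := by
  unfold bv
  rw [MonoidHom.noncommPiCoprod_mulSingle]

theorem bv_comm_single {v : V} {z : Racg (blow Γ k)}
    (h : ∀ i x, z * bo Γ k v i x = bo Γ k v i x * z) (x : EA k v) :
    z * bv Γ k v x = bv Γ k v x * z := by
  have : ((MulAut.conj z).toMonoidHom).comp (bv Γ k v) = bv Γ k v := by
    apply MonoidHom.pi_ext
    intro i y
    rw [MonoidHom.comp_apply, bv_single]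
    show z * bo Γ k v i y * z⁻¹ = _
    rw [h, mul_inv_cancel_right]
  have h1 := DFunLike.congr_fun this x
  have h2 : z * bv Γ k v x * z⁻¹ = bv Γ k v x := h1
  rw [mul_inv_eq_iff_eq_mul] at h2
  exact h2

/-- forward map -/
noncomputable def bfor : GraphProd Γ (EA k) →* Racg (blow Γ k) :=
  GP.lift (bv Γ k) (by
    intro u v h x y
    apply bv_comm_single
    intro i z
    symm
    apply bv_comm_single
    intro j z'
    exact of_comm (Γ := blow Γ k) (A := fun _ => Multiplicative (ZMod 2)) (u := ⟨v, i⟩)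
      (v := ⟨u, j⟩) (Or.inl h.symm) z z')

/-- backward map -/
noncomputable def bback : Racg (blow Γ k) →* GraphProd Γ (EA k) :=
  GP.lift (fun a => (GP.of (Γ := Γ) (A := EA k) a.1).comp
    (MonoidHom.mulSingle (fun _ : Fin (k a.1) => Multiplicative (ZMod 2)) a.2)) (by
    rintro ⟨u, i⟩ ⟨v, j⟩ h x y
    rcases h with h | ⟨h, -⟩
    · exact of_comm (Γ := Γ) (A := EA k) h _ _
    · simp only at h
      subst h
      simp only [MonoidHom.comp_apply]
      rw [← map_mul, ← map_mul, mul_comm])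

theorem bfor_bback : (bfor Γ k).comp (bback Γ k) = MonoidHom.id _ := by
  apply hom_ext
  rintro ⟨v, i⟩ x
  rw [MonoidHom.comp_apply]
  unfold bfor bback
  rw [GP.lift_of, MonoidHom.comp_apply, GP.lift_of]
  exact bv_single Γ k v i x

theorem bback_bfor : (bback Γ k).comp (bfor Γ k) = MonoidHom.id _ := by
  apply hom_ext
  intro v x
  have : ((bback Γ k).comp (bfor Γ k)).comp (GP.of (Γ := Γ) (A := EA k) v) =
      GP.of (Γ := Γ) (A := EA k) v := by
    apply MonoidHom.pi_ext
    intro i y
    rw [MonoidHom.comp_apply, MonoidHom.comp_apply]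
    unfold bfor
    rw [GP.lift_of, bv_single]
    unfold bback bo
    rw [GP.lift_of]
    rfl
  exact DFunLike.congr_fun this x

/-- the isomorphism -/
noncomputable def blowEquiv : GraphProd Γ (EA k) ≃* Racg (blow Γ k) :=
  MonoidHom.toMulEquiv (bfor Γ k) (bback Γ k) (bback_bfor Γ k) (bfor_bback Γ k)

end blow

/-- the order is a power of two -/
def P2 (n : ℕ) : Prop := ∃ k, n = 2 ^ k

section pos

theorem gens_qid_equiv {V V' : Type} [Finite V] [Finite V'] {Γ : SimpleGraph V}
    {Γ' : SimpleGraph V'} {A : V → Type} {A' : V' → Type} [∀ v, Group (A v)] [∀ v, Group (A' v)]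
    [∀ v, Finite (A v)] [∀ v, Finite (A' v)] (e : GraphProd Γ A ≃* GraphProd Γ' A') :
    Nonempty (QId (GraphProd Γ A) (GraphProd Γ' A') (gens Set.univ) (gens Set.univ)) :=
  QId.ofEquiv e (gens_finite _) (gens_inv _) closure_gens_univ (gens_finite _) (gens_inv _)
    closure_gens_univ

/-- all orders powers of two -/
theorem pos_zero {V : Type} [Finite V] (Γ : SimpleGraph V) (A : V → Type) [∀ v, Group (A v)]
    [∀ v, Finite (A v)] (h : ∀ v, P2 (Nat.card (A v))) :
    ∃ (V' : Type) (_ : Finite V') (Γ' : SimpleGraph V'),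
      Nonempty (QId (GraphProd Γ A) (Racg Γ') (gens Set.univ) (gens Set.univ)) := by
  classical
  choose k hk using h
  have e0 : ∀ v, Nonempty (A v ≃ EA k v) := by
    intro v
    have h1 : Nat.card (A v) = Nat.card (EA k v) := by
      rw [hk, Nat.card_fun, Nat.card_eq_fintype_card (α := Fin (k v)), Fintype.card_fin]
      congr 1
      exact (Nat.card_zmod 2).symm
    exact Finite.card_eq.mp h1
  let e1 : ∀ v, A v ≃ EA k v := fun v => (e0 v).some
  let e : ∀ v, A v ≃ EA k v := fun v => (e1 v).trans (Equiv.swap (e1 v 1) 1)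
  have he : ∀ v, e v 1 = 1 := by
    intro v
    show Equiv.swap (e1 v 1) 1 (e1 v 1) = 1
    rw [Equiv.swap_apply_left]
  obtain ⟨q1⟩ := swap_qid (Γ := Γ) e he
  obtain ⟨q2⟩ := gens_qid_equiv (blowEquiv Γ k)
  exact ⟨_, inferInstance, blow Γ k, ⟨q1.comp q2⟩⟩

/-- **Removing all vertices with a bad order**, if they are pairwise adjacent. -/
theorem remove (good : ℕ → Prop) : ∀ (n : ℕ) (V : Type) [Finite V] (Γ : SimpleGraph V)
    (A : V → Type) [∀ v, Group (A v)] [∀ v, Finite (A v)],
    (∀ u v, ¬ good (Nat.card (A u)) → ¬ good (Nat.card (A v)) → u ≠ v → Γ.Adj u v) →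
    {v | ¬ good (Nat.card (A v))}.ncard = n →
    ∃ (V' : Type) (_ : Finite V') (Γ' : SimpleGraph V') (A' : V' → Type)
      (_ : ∀ v, Group (A' v)) (_ : ∀ v, Finite (A' v)), (∀ v, good (Nat.card (A' v))) ∧
      (∀ v, ∃ u, Nat.card (A' v) = Nat.card (A u)) ∧
      Nonempty (QId (GraphProd Γ A) (GraphProd Γ' A') (gens Set.univ) (gens Set.univ)) := by
  intro n
  induction n with
  | zero =>
    intro V _ Γ A _ _ _ hcard
    have hemp : {v | ¬ good (Nat.card (A v))} = ∅ :=
      (Set.ncard_eq_zero (Set.toFinite _)).mp hcard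
    have hgood : ∀ v, good (Nat.card (A v)) := by
      intro v
      by_contra hv
      have : v ∈ {v | ¬ good (Nat.card (A v))} := hv
      rw [hemp] at this
      exact this
    exact ⟨V, inferInstance, Γ, A, inferInstance, inferInstance, hgood, fun v => ⟨v, rfl⟩,
      ⟨QId.refl (gens_finite _) (gens_inv _)⟩⟩
  | succ n ih =>
    intro V _ Γ A _ _ hcl hcard
    have hne : {v | ¬ good (Nat.card (A v))}.Nonempty := by
      rw [← Set.ncard_pos (Set.toFinite _), hcard]
      omega
    obtain ⟨w, hw⟩ := hne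
    have hw' : ¬ good (Nat.card (A w)) := hw
    have hKfin : ∀ a : KV Γ A w, Finite (KA Γ A w a) := fun a => inferInstance
    have hrest : ∀ p : A w × {v : V // v ≠ w ∧ ¬ Γ.Adj w v}, good (Nat.card (A p.2.1)) := by
      rintro ⟨k, u⟩
      by_contra h
      exact u.2.2 (hcl w u.1 hw' h u.2.1.symm)
    obtain ⟨V', hV', Γ', A', hG, hF, h1, h2, ⟨q⟩⟩ := ih (KV Γ A w) (KG Γ A w) (KA Γ A w) (by
      rintro (l | p) (l' | p') ha hb hab
      · refine ⟨hcl _ _ ha hb ?_, trivial⟩
        intro h
        apply hab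
        congr 1
        exact Subtype.ext h
      · exact absurd (hrest p') hb
      · exact absurd (hrest p) ha
      · exact absurd (hrest p) ha) (by
      have hbij : (und Γ A w) '' {a : KV Γ A w | ¬ good (Nat.card (KA Γ A w a))} =
          {v | ¬ good (Nat.card (A v))} \ {w} := by
        ext v
        constructor
        · rintro ⟨a, ha, rfl⟩
          rcases a with l | p
          · exact ⟨ha, l_ne Γ w l⟩
          · exact absurd (hrest p) ha
        · rintro ⟨hv, hvw⟩
          have hvw' : v ≠ w := hvw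
          exact ⟨Sum.inl ⟨v, hcl w v hw' hv hvw'.symm⟩, hv, rfl⟩
      have hinj : Set.InjOn (und Γ A w) {a : KV Γ A w | ¬ good (Nat.card (KA Γ A w a))} := by
        rintro (l | p) ha (l' | p') hb h
        · congr 1
          exact Subtype.ext h
        · exact absurd (hrest p') hb
        · exact absurd (hrest p) ha
        · exact absurd (hrest p) ha
      rw [← hinj.ncard_image, hbij, Set.ncard_sdiff_singleton_of_mem hw, hcard]
      rfl)
    obtain ⟨q0⟩ := kill_qid Γ A w
    refine ⟨V', hV', Γ', A', hG, hF, h1, ?_, ⟨q0.comp q⟩⟩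
    intro v
    obtain ⟨a, ha⟩ := h2 v
    exact ⟨und Γ A w a, ha⟩

/-- **The positive theorem.** -/
theorem pos {V : Type} [Finite V] (Γ : SimpleGraph V) (A : V → Type) [∀ v, Group (A v)]
    [∀ v, Finite (A v)]
    (h : ∀ u v, ¬ P2 (Nat.card (A u)) → ¬ P2 (Nat.card (A v)) → u ≠ v → Γ.Adj u v) :
    ∃ (V' : Type) (_ : Finite V') (Γ' : SimpleGraph V'),
      Nonempty (QId (GraphProd Γ A) (Racg Γ') (gens Set.univ) (gens Set.univ)) := by
  obtain ⟨V1, _, Γ1, A1, _, _, h1, -, ⟨q1⟩⟩ := remove P2 _ V Γ A h rfl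
  obtain ⟨V2, h2, Γ2, ⟨q2⟩⟩ := pos_zero Γ1 A1 h1
  exact ⟨V2, h2, Γ2, ⟨q1.comp q2⟩⟩

end pos

end Pool.Agent.KS6_42.GQ
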