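import Pool.Agent.KS6_42.GQ.Cox
import Pool.Agent.KS6_42.GQ.Rac

set_option autoImplicit false

/-!
# The conclusions
-/

namespace Pool.Agent.KS6_42.GQ

open GP

section

variable {p q : ℕ} (hp : 2 ≤ p) (hq : 2 ≤ q) (hpq : p ≠ q) (A : Ex.Vx → Type)
  [∀ v, Group (A v)] [∀ v, Finite (A v)] (hA : ∀ v, Nat.card (A v) = Ex.orders p q v)

include hp hq hpq hA

/-- **The obstruction.** -/
theorem div_of_qi {V : Type} [Fintype V] (Γ : SimpleGraph V) (B : V → Type)
    [∀ v, Group (B v)] [∀ v, Finite (B v)]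
    (h : QuasiIsometric (GraphProd Ex.Γ A) (GraphProd Γ B)) :
    p ∣ ∏ v, Nat.card (B v) ∨ q ∣ ∏ v, Nat.card (B v) := by
  let _ : Par := ⟨p, q, hp, hq, hpq⟩
  obtain ⟨S, T, hS, hT, ⟨q0⟩⟩ := h.toQId
  obtain ⟨q1⟩ := q0.symm (sy_finite T) (sy_inv T)
  obtain ⟨q2⟩ := q1.exists_change (T' := gens Set.univ) (S' := gens Set.univ) (sy_gen hT)
    (gens_finite _) (gens_inv _) closure_gens_univ (sy_finite S) (sy_inv S) (sy_gen hS)
    (gens_finite _) (gens_inv _) closure_gens_univ
  have e0 : ∀ v, Nonempty (A v ≃ Multiplicative (ZMod (Ex.ord v))) := by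
    intro v
    apply Finite.card_eq.mp
    rw [hA]
    exact (Nat.card_zmod _).symm
  let e1 : ∀ v, A v ≃ Multiplicative (ZMod (Ex.ord v)) := fun v => (e0 v).some
  let e : ∀ v, A v ≃ Multiplicative (ZMod (Ex.ord v)) := fun v =>
    (e1 v).trans (Equiv.swap (e1 v 1) 1)
  have he : ∀ v, e v 1 = 1 := by
    intro v
    show Equiv.swap (e1 v 1) 1 (e1 v 1) = 1
    rw [Equiv.swap_apply_left]
  obtain ⟨q3⟩ := swap_qid (Γ := Ex.Γ) e he
  exact Gpr.dvd_prod (theAct (Y := Ex.system) (q := q2.comp q3) closure_gens_univ)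

/-- **The exact criterion, for sets of primes.** -/
theorem iff_primes (π : Set ℕ) (h2 : 2 ∈ π) :
    (∃ (V : Type) (_ : Finite V) (Γ : SimpleGraph V) (B : V → Type) (_ : ∀ v, Group (B v))
      (_ : ∀ v, Finite (B v)), (∀ v r, r.Prime → r ∣ Nat.card (B v) → r ∈ π) ∧
        QuasiIsometric (GraphProd Ex.Γ A) (GraphProd Γ B)) ↔
    (∀ r, r.Prime → r ∣ p → r ∈ π) ∨ (∀ r, r.Prime → r ∣ q → r ∈ π) := by
  constructor
  · rintro ⟨V, hV, Γ, B, _, _, hB, hqi⟩
    have : Fintype V := Fintype.ofFinite V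
    rcases div_of_qi hp hq hpq A hA Γ B hqi with h | h
    · left
      intro r hr hrp
      obtain ⟨v, -, hv⟩ := hr.prime.exists_mem_finset_dvd (hrp.trans h)
      exact hB v r hr hv
    · right
      intro r hr hrp
      obtain ⟨v, -, hv⟩ := hr.prime.exists_mem_finset_dvd (hrp.trans h)
      exact hB v r hr hv
  · intro h
    have h2' : ∀ r, r.Prime → r ∣ 2 → r ∈ π := by
      intro r hr hr2
      rw [(Nat.prime_dvd_prime_iff_eq hr Nat.prime_two).mp hr2]
      exact h2
    have hcl : ∀ u v, ¬ (∀ r, r.Prime → r ∣ Nat.card (A u) → r ∈ π) →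
        ¬ (∀ r, r.Prime → r ∣ Nat.card (A v) → r ∈ π) → u ≠ v → Ex.Γ.Adj u v := by
      intro u v hu hv huv
      rw [hA] at hu hv
      rcases u with u | i
      · exact absurd h2' hu
      · rcases v with v | j
        · exact absurd h2' hv
        · cases i <;> cases j
          · exact absurd rfl huv
          · rcases h with h | h
            · exact absurd h hu
            · exact absurd h hv
          · rcases h with h | h
            · exact absurd h hv
            · exact absurd h hu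
          · exact absurd rfl huv
    obtain ⟨V, h1, Γ, B, h3, h4, h5, -, ⟨q0⟩⟩ :=
      remove (fun n => ∀ r, r.Prime → r ∣ n → r ∈ π) _ Ex.Vx Ex.Γ A hcl rfl
    exact ⟨V, h1, Γ, B, h3, h4, h5,
      q0.toQI closure_gens_univ (gens_finite _) (gens_inv _) closure_gens_univ⟩

/-- **The exact criterion, for right-angled Coxeter groups.** -/
theorem iff_racg :
    (∃ (V : Type) (_ : Finite V) (Γ : SimpleGraph V),
        QuasiIsometric (GraphProd Ex.Γ A) (Racg Γ)) ↔ (∃ k, p = 2 ^ k) ∨ (∃ k, q = 2 ^ k) := by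
  constructor
  · rintro ⟨V, hV, Γ, hqi⟩
    have : Fintype V := Fintype.ofFinite V
    have h := div_of_qi hp hq hpq A hA Γ (fun _ => Multiplicative (ZMod 2)) hqi
    have hc : ∏ _v : V, Nat.card (Multiplicative (ZMod 2)) = 2 ^ Fintype.card V := by
      rw [Finset.prod_const, Finset.card_univ]
      congr 1
      exact Nat.card_zmod 2
    rw [hc] at h
    rcases h with h | h
    · obtain ⟨k, -, hk⟩ := (Nat.dvd_prime_pow Nat.prime_two).mp h
      exact Or.inl ⟨k, hk⟩
    · obtain ⟨k, -, hk⟩ := (Nat.dvd_prime_pow Nat.prime_two).mp h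
      exact Or.inr ⟨k, hk⟩
  · intro h
    have h2' : P2 2 := ⟨1, rfl⟩
    have hcl : ∀ u v, ¬ P2 (Nat.card (A u)) → ¬ P2 (Nat.card (A v)) → u ≠ v → Ex.Γ.Adj u v := by
      intro u v hu hv huv
      rw [hA] at hu hv
      rcases u with u | i
      · exact absurd h2' hu
      · rcases v with v | j
        · exact absurd h2' hv
        · cases i <;> cases j
          · exact absurd rfl huv
          · rcases h with h | h
            · exact absurd h hu
            · exact absurd h hv
          · rcases h with h | h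
            · exact absurd h hv
            · exact absurd h hu
          · exact absurd rfl huv
    obtain ⟨V, h1, Γ, ⟨q0⟩⟩ := pos Ex.Γ A hcl
    exact ⟨V, h1, Γ, q0.toQI closure_gens_univ (gens_finite _) (gens_inv _) closure_gens_univ⟩

end

end Pool.Agent.KS6_42.GQ
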