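import Pool.Agent.KS6_42.GQ.Cyc

set_option autoImplicit false

/-!
# Isolation of lines
-/

namespace Pool.Agent.KS6_42.GQ

open Multiplicative

namespace GP

variable {V : Type} {Γ : SimpleGraph V} {A : V → Type} [∀ v, Group (A v)]

theorem sub_singleton {w : V} {g : GraphProd Γ A} (hg : g ∈ (sub {w} : Subgroup (GraphProd Γ A))) :
    ∃ x : A w, g = of w x := by
  refine sub_induction (p := fun g => ∃ x : A w, g = of w x) hg ⟨1, (map_one _).symm⟩ ?_
  rintro g z x hz - ⟨y, rfl⟩
  have hz' : z = w := hz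
  subst hz'
  exact ⟨y * x, (map_mul _ _ _).symm⟩

/-- Decomposition of `sub (insert w T)` if `w` is adjacent to all of `T`. -/
theorem decomp {w : V} {T : Set V} (hT : ∀ u ∈ T, Γ.Adj w u) {g : GraphProd Γ A}
    (hg : g ∈ (sub (insert w T) : Subgroup (GraphProd Γ A))) :
    g = retr T g * retr {w} g := by
  have hwT : w ∉ T := fun h => Γ.loopless.irrefl w (hT w h)
  refine sub_induction (p := fun g => g = retr T g * retr {w} g) hg (by simp) ?_
  intro g z x hz _ ih
  rw [map_mul, map_mul]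
  rcases hz with rfl | hz
  · rw [retr_of_not_mem hwT, mul_one, retr_of_mem (Set.mem_singleton z), ← mul_assoc, ← ih]
  · have hzw : z ∉ ({w} : Set V) := fun h => by
      rw [Set.mem_singleton_iff] at h; subst h; exact hwT hz
    rw [retr_of_mem hz, retr_of_not_mem hzw, mul_one]
    have hc : (of z x : GraphProd Γ A) * retr {w} g = retr {w} g * of z x := by
      apply sub_comm (T := {z}) (T' := {w})
      · rintro a ha b hb
        rw [Set.mem_singleton_iff] at ha hb
        subst ha hb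
        exact (hT _ hz).symm
      · exact of_mem_sub (Set.mem_singleton z) x
      · exact retr_mem _ _
    rw [mul_assoc, hc, ← mul_assoc, ← ih]

theorem sub_st_inv (u : V) (h : GraphProd Γ A) : ∀ z ∈ st Γ u, ∀ (x : A z) (g : GraphProd Γ A),
    g * of z x ∈ {y | h⁻¹ * y ∈ (sub (st Γ u) : Subgroup (GraphProd Γ A))} ↔
      g ∈ {y | h⁻¹ * y ∈ (sub (st Γ u) : Subgroup (GraphProd Γ A))} := by
  intro z hz x g
  simp only [Set.mem_ofPred_eq]
  rw [← mul_assoc]
  exact Subgroup.mul_mem_cancel_right _ (of_mem_sub hz x)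

end GP

namespace CG

open GP

variable {V : Type} {Γ : SimpleGraph V} {n : V → ℕ}

section

variable {u v w : V}

/-- Powers of `t = u v` are not in the star of `u`. -/
theorem zpow_not_mem (huv : u ≠ v) (hadj : ¬ Γ.Adj u v) (hu : n u = 2) (hv : n v = 2)
    {k : ℤ} (hk : k ≠ 0) : (gen Γ n u * gen Γ n v) ^ k ∉ (sub (st Γ u) : Subgroup (CG Γ n)) := by
  obtain ⟨φ, h1, h2, h3⟩ := exists_dihedral (Γ := Γ) (n := n) huv hadj hu hv
  intro h
  have := dih_fix hu hadj huv h1 h3 h
  rw [dih_zpow h1 h2] at this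
  omega

theorem wall_pow (huv : u ≠ v) (hadj : ¬ Γ.Adj u v) (hu : n u = 2) (hv : n v = 2)
    {H : CG Γ n → CG Γ n} (H1 : H 1 = 1)
    (H2 : ∀ g, g ∈ (sub (st Γ u) : Subgroup (CG Γ n)) → H (g * gen Γ n u) = H g * gen Γ n u)
    (H3 : ∀ g, g ∉ (sub (st Γ u) : Subgroup (CG Γ n)) → H (g * gen Γ n u) = H g)
    (H4 : ∀ g, H (g * gen Γ n v) = H g) :
    (∀ k : ℕ, H ((gen Γ n u * gen Γ n v) ^ (k + 1)) = gen Γ n u) ∧
    (∀ k : ℕ, H ((gen Γ n v * gen Γ n u) ^ k) = 1) := by
  constructor
  · intro k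
    induction k with
    | zero =>
      rw [zero_add, pow_one, H4]
      have := H2 1 (one_mem _)
      rw [one_mul, H1, one_mul] at this
      exact this
    | succ k ih =>
      rw [pow_succ, ← mul_assoc, H4, H3, ih]
      have := zpow_not_mem huv hadj hu hv (k := ((k + 1 : ℕ) : ℤ)) (by omega)
      rwa [zpow_natCast] at this
  · intro k
    induction k with
    | zero => simpa using H1
    | succ k ih =>
      rw [pow_succ, ← mul_assoc, H3, H4, ih]
      obtain ⟨φ, h1, h2, h3⟩ := exists_dihedral (Γ := Γ) (n := n) huv hadj hu hv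
      intro h
      have h4 := dih_fix hu hadj huv h1 h3 h
      have h5 : gen Γ n v * gen Γ n u = (gen Γ n u * gen Γ n v)⁻¹ := by
        rw [mul_inv_rev, gen_inv hu, gen_inv hv]
      rw [map_mul, Equiv.Perm.mul_apply, h2, refl_apply, h5, inv_pow, ← zpow_natCast, ← zpow_neg,
        dih_zpow h1 h2] at h4
      omega

/-- half of the isolation statement -/
theorem iso_half (huv : u ≠ v) (hadj : ¬ Γ.Adj u v) (hu : n u = 2) (hv : n v = 2)
    (hwu : Γ.Adj w u) (hwv : Γ.Adj w v) {g : CG Γ n} (hg : retr {u, v} g = 1) {m : ℕ}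
    (hm : ∀ d ∈ (sub {u, v} : Subgroup (CG Γ n)),
      g * d ∈ nb (gens Set.univ) ((sub (insert w {u, v}) : Subgroup (CG Γ n)) : Set (CG Γ n)) m) :
    g ∈ (sub (st Γ u) : Subgroup (CG Γ n)) := by
  classical
  obtain ⟨φ, h1, h2, h3⟩ := exists_dihedral (Γ := Γ) (n := n) huv hadj hu hv
  obtain ⟨H, H1, H2, H3⟩ := exists_wall (Γ := Γ) (A := fun v => Multiplicative (ZMod (n v))) u
    ((sub (st Γ u) : Subgroup (CG Γ n)) : Set (CG Γ n)) (by
      intro z hz x g
      exact Subgroup.mul_mem_cancel_right _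
        (of_mem_sub (A := fun v => Multiplicative (ZMod (n v))) hz x))
  have H2p : ∀ g (x : Multiplicative (ZMod (n u))), g ∈ (sub (st Γ u) : Subgroup (CG Γ n)) →
      H (g * of u x) = H g * of u x := by
    intro g x hg
    have hg' : g ∈ ((sub (st Γ u) : Subgroup (CG Γ n)) : Set (CG Γ n)) := hg
    rw [H2, if_pos hg']
  have H2n : ∀ g (x : Multiplicative (ZMod (n u))), g ∉ (sub (st Γ u) : Subgroup (CG Γ n)) →
      H (g * of u x) = H g := by
    intro g x hg
    have hg' : g ∉ ((sub (st Γ u) : Subgroup (CG Γ n)) : Set (CG Γ n)) := hg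
    rw [H2, if_neg hg', mul_one]
  have hwu' : w ≠ u := fun h => Γ.loopless.irrefl u (h ▸ hwu)
  have hwv' : w ≠ v := fun h => Γ.loopless.irrefl v (h ▸ hwv)
  have hT : ∀ x ∈ ({u, v} : Set V), Γ.Adj w x := by
    rintro x (rfl | hx)
    · exact hwu
    · rw [Set.mem_singleton_iff] at hx; subst hx; exact hwv
  -- the coarse position of `g * d`
  have key : ∀ d ∈ (sub {u, v} : Subgroup (CG Γ n)), ∃ x, ∃ γ ∈ Bl (gens Set.univ) (2 * m),
      g * d = d * of w x * γ := by
    intro d hd
    obtain ⟨β, hβ, he⟩ := hm d hd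
    have he' : g * d * β ∈ (sub (insert w {u, v}) : Subgroup (CG Γ n)) := he
    have hdec := decomp hT he'
    have e1 : retr {u, v} (g * d * β) = d * retr {u, v} β := by
      rw [map_mul, map_mul, hg, one_mul, retr_eq_self hd]
    rw [e1] at hdec
    obtain ⟨x, hx⟩ := sub_singleton (retr_mem {w} (g * d * β))
    refine ⟨x, retr {u, v} β * β⁻¹, ?_, ?_⟩
    · rw [two_mul]
      exact mul_mem_Bl (Bl_mono_set (gens_mono (Set.subset_univ _)) m (retr_mem_Bl hβ))
        (inv_mem_Bl (gens_inv _) hβ)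
    · rw [hx] at hdec
      have hc : (of w x : CG Γ n) * retr {u, v} β = retr {u, v} β * of w x := by
        apply sub_comm (T := {w}) (T' := {u, v})
        · rintro a ha b hb
          rw [Set.mem_singleton_iff] at ha
          subst ha
          exact hT b hb
        · exact of_mem_sub (A := fun v => Multiplicative (ZMod (n v))) (Set.mem_singleton w) x
        · exact retr_mem _ _
      calc g * d = g * d * β * β⁻¹ := by group
        _ = d * retr {u, v} β * of w x * β⁻¹ := by rw [hdec]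
        _ = d * (retr {u, v} β * of w x) * β⁻¹ := by group
        _ = d * (of w x * retr {u, v} β) * β⁻¹ := by rw [hc]
        _ = _ := by group
  -- values of `H` far out
  have far : ∀ k : ℤ, 2 * (m : ℤ) < |k| →
      H (g * (gen Γ n u * gen Γ n v) ^ k) = H ((gen Γ n u * gen Γ n v) ^ k) := by
    intro k hk
    have hd : (gen Γ n u * gen Γ n v) ^ k ∈ (sub {u, v} : Subgroup (CG Γ n)) :=
      zpow_mem (mul_mem (gen_mem_sub (by simp)) (gen_mem_sub (by simp))) k
    obtain ⟨x, γ, hγ, e⟩ := key _ hd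
    rw [e]
    have hball : ∀ b ∈ Bl (gens Set.univ : Set (CG Γ n)) (2 * m),
        (gen Γ n u * gen Γ n v) ^ k * of w x * b ∉
          ((sub (st Γ u) : Subgroup (CG Γ n)) : Set (CG Γ n)) := by
      intro b hb hin
      have h4 := dih_fix hu hadj huv h1 h3 hin
      rw [map_mul, map_mul, Equiv.Perm.mul_apply, h3 w hwu' hwv', mul_one, dih_zpow h1 h2] at h4
      have h5 := dih_bound hu hv h1 h2 h3 hb
      push_cast at h5
      have : φ b 0 = k := by omega
      rw [this] at h5
      omega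
    have hconst := const_on_ball (S := gens Set.univ) (χ := H)
      (s := ((sub (st Γ u) : Subgroup (CG Γ n)) : Set (CG Γ n))) (by
        rintro g _ ⟨z, -, y, rfl⟩ hg1 _
        by_cases hz : z = u
        · subst hz
          exact H2n g y hg1
        · exact H3 z hz g y) hball
    rw [hconst γ hγ, H3 w hwu']
  have hpow := wall_pow huv hadj hu hv (H := H) H1
    (fun g hg => H2p g _ hg)
    (fun g hg => H2n g _ hg)
    (fun g => H3 v huv.symm g _)
  -- some point of `g D` lies in the star of `u`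
  have hex : ∃ d ∈ (sub {u, v} : Subgroup (CG Γ n)), g * d ∈ (sub (st Γ u) : Subgroup (CG Γ n)) := by
    by_contra hcon
    push Not at hcon
    have hc : ∀ d ∈ (sub {u, v} : Subgroup (CG Γ n)), H (g * d) = H g := by
      intro d hd
      refine sub_induction (p := fun d => H (g * d) = H g) hd (by simp) ?_
      intro d z x hz hd' ih
      rw [← mul_assoc]
      rcases hz with rfl | hz
      · rw [H2n _ x (hcon d hd'), ih]
      · rw [Set.mem_singleton_iff] at hz
        subst hz
        rw [H3 z huv.symm, ih]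
    have p1 := far (((2 * m + 1 : ℕ) : ℤ)) (by push_cast; rw [abs_of_nonneg] <;> omega)
    have p2 := far (-((2 * m + 1 : ℕ) : ℤ)) (by push_cast; rw [abs_neg, abs_of_nonneg] <;> omega)
    have hmem : ∀ k : ℤ, (gen Γ n u * gen Γ n v) ^ k ∈ (sub {u, v} : Subgroup (CG Γ n)) := fun k =>
      zpow_mem (mul_mem (gen_mem_sub (by simp)) (gen_mem_sub (by simp))) k
    rw [hc _ (hmem _)] at p1 p2
    have q2 : (gen Γ n u * gen Γ n v) ^ (-((2 * m + 1 : ℕ) : ℤ)) =
        (gen Γ n v * gen Γ n u) ^ (2 * m + 1) := by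
      rw [zpow_neg, zpow_natCast, ← inv_pow, mul_inv_rev, gen_inv hu, gen_inv hv]
    rw [q2, hpow.2] at p2
    rw [zpow_natCast, hpow.1, p2] at p1
    exact gen_ne_one hu p1.symm
  obtain ⟨d, hd, hgd⟩ := hex
  have hρ := retr_mem_inter (T := {u, v}) hgd
  rw [map_mul, hg, one_mul, retr_eq_self hd] at hρ
  have : d ∈ (sub (st Γ u) : Subgroup (CG Γ n)) := sub_mono Set.inter_subset_right hρ
  exact (Subgroup.mul_mem_cancel_right _ this).mp hgd

/-- **Isolation, same type.** -/
theorem iso_same (huv : u ≠ v) (hadj : ¬ Γ.Adj u v) (hu : n u = 2) (hv : n v = 2)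
    (hwu : Γ.Adj w u) (hwv : Γ.Adj w v) (hst : st Γ u ∩ st Γ v = {w}) {g : CG Γ n} {m : ℕ}
    (hm : ∀ d ∈ (sub {u, v} : Subgroup (CG Γ n)),
      g * d ∈ nb (gens Set.univ) ((sub (insert w {u, v}) : Subgroup (CG Γ n)) : Set (CG Γ n)) m) :
    g ∈ (sub (insert w {u, v}) : Subgroup (CG Γ n)) := by
  set r := retr {u, v} g with hr
  have hrm : r ∈ (sub {u, v} : Subgroup (CG Γ n)) := retr_mem _ _
  have h0 : retr {u, v} (g * r⁻¹) = 1 := by
    rw [map_mul, map_inv, ← hr, retr_eq_self hrm, mul_inv_cancel]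
  have h1 : ∀ d ∈ (sub {u, v} : Subgroup (CG Γ n)),
      g * r⁻¹ * d ∈ nb (gens Set.univ)
        ((sub (insert w {u, v}) : Subgroup (CG Γ n)) : Set (CG Γ n)) m := by
    intro d hd
    rw [mul_assoc]
    exact hm _ (mul_mem (inv_mem hrm) hd)
  have h2 := iso_half huv hadj hu hv hwu hwv h0 h1
  have h3 : g * r⁻¹ ∈ (sub (st Γ v) : Subgroup (CG Γ n)) := by
    refine iso_half (u := v) (v := u) (w := w) huv.symm (fun h => hadj h.symm) hv hu hwv hwu
      (by rw [Set.pair_comm]; exact h0) (m := m) ?_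
    rw [Set.pair_comm v u]
    exact h1
  have h4 := sub_inter h2 h3
  rw [hst] at h4
  have h5 : g * r⁻¹ ∈ (sub (insert w {u, v}) : Subgroup (CG Γ n)) := sub_mono (by simp) h4
  have h6 : r ∈ (sub (insert w {u, v}) : Subgroup (CG Γ n)) := sub_mono (by simp) hrm
  exact (Subgroup.mul_mem_cancel_right _ (inv_mem h6)).mp h5

/-- **Isolation, different types.** -/
theorem iso_diff (huv : u ≠ v) (hadj : ¬ Γ.Adj u v) (hu : n u = 2) (hv : n v = 2)
    {T : Set V} (hT : u ∉ T ∧ v ∉ T) {g h : CG Γ n} {m : ℕ}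
    (hm : ∀ d ∈ (sub {u, v} : Subgroup (CG Γ n)),
      g * d ∈ nb (gens Set.univ) {y | h⁻¹ * y ∈ (sub T : Subgroup (CG Γ n))} m) : False := by
  obtain ⟨φ, h1, h2, h3⟩ := exists_dihedral (Γ := Γ) (n := n) huv hadj hu hv
  have hker : ∀ y ∈ (sub T : Subgroup (CG Γ n)), φ y = 1 := by
    intro y hy
    refine sub_induction (p := fun y => φ y = 1) hy (map_one _) ?_
    intro y z x hz _ ih
    rw [map_mul, ih, h3 z (fun e => hT.1 (e ▸ hz)) (fun e => hT.2 (e ▸ hz)), one_mul]
  set c := (φ g)⁻¹ (φ h 0) with hc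
  have key : ∀ k : ℤ, |c + k| ≤ m := by
    intro k
    have hd : (gen Γ n u * gen Γ n v) ^ k ∈ (sub {u, v} : Subgroup (CG Γ n)) :=
      zpow_mem (mul_mem (gen_mem_sub (by simp)) (gen_mem_sub (by simp))) k
    obtain ⟨β, hβ, he⟩ := hm _ hd
    have e1 := hker _ he
    have e2 : φ (g * (gen Γ n u * gen Γ n v) ^ k * β) = φ h := by
      have : g * (gen Γ n u * gen Γ n v) ^ k * β =
          h * (h⁻¹ * (g * (gen Γ n u * gen Γ n v) ^ k * β)) := by group
      rw [this, map_mul, e1, mul_one]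
    have e3 : φ g (φ β 0 - k) = φ h 0 := by
      rw [← e2, map_mul, map_mul, Equiv.Perm.mul_apply, Equiv.Perm.mul_apply, dih_zpow h1 h2]
    have e4 : φ β 0 - k = c := by
      rw [hc, ← e3]; simp
    have e5 := dih_bound hu hv h1 h2 h3 hβ
    have : φ β 0 = c + k := by omega
    rwa [this] at e5
  have k1 := key (m + 1 - c)
  have : c + (m + 1 - c) = (m : ℤ) + 1 := by ring
  rw [this, abs_of_nonneg (by omega)] at k1
  omega

end

end CG

end Pool.Agent.KS6_42.GQ
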