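import Pool.Agent.KS6_42.GQ.Met

set_option autoImplicit false

/-!
# Word metrics and quasi-isometries
-/

namespace Pool.Agent.KS6_42.GQ

/-- Quasi-isometry data between groups with generating sets, in terms of balls. -/
structure QId (W G : Type) [Group W] [Group G] (T : Set W) (S : Set G) where
  f : W → G
  a : ℕ
  c : ℕ
  q1 : ∀ x y n, x⁻¹ * y ∈ Bl T n → (f x)⁻¹ * f y ∈ Bl S (a * n + c)
  q2 : ∀ x y n, (f x)⁻¹ * f y ∈ Bl S n → x⁻¹ * y ∈ Bl T (a * n + c)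
  q3 : ∀ g, ∃ x, (f x)⁻¹ * g ∈ Bl S c
  finT : T.Finite
  invT : ∀ x ∈ T, x⁻¹ ∈ T

section

variable {G : Type} [Group G]

/-- the symmetrised generating set -/
def sy (S : Finset G) : Set G := {x | x ∈ S ∨ x⁻¹ ∈ S}

theorem sy_finite (S : Finset G) : (sy S).Finite := by
  have : sy S ⊆ (S : Set G) ∪ (fun x => x⁻¹) '' (S : Set G) := by
    rintro x (h | h)
    · exact Or.inl h
    · exact Or.inr ⟨x⁻¹, h, inv_inv x⟩
  exact (S.finite_toSet.union (S.finite_toSet.image _)).subset this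

theorem sy_inv (S : Finset G) : ∀ x ∈ sy S, x⁻¹ ∈ sy S := by
  rintro x (h | h)
  · exact Or.inr (by rwa [inv_inv])
  · exact Or.inl h

theorem sy_gen {S : Finset G} (h : Subgroup.closure (S : Set G) = ⊤) :
    Subgroup.closure (sy S) = ⊤ := by
  rw [eq_top_iff, ← h]
  exact Subgroup.closure_mono (fun x hx => Or.inl hx)

theorem wordLength_le {S : Finset G} (h : Subgroup.closure (S : Set G) = ⊤) (g : G) (n : ℕ) :
    wordLength S g ≤ n ↔ g ∈ Bl (sy S) n := by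
  constructor
  · intro hn
    have hne : {n : ℕ | ∃ l : List G, l.length = n ∧ (∀ x ∈ l, x ∈ S ∨ x⁻¹ ∈ S) ∧
        l.prod = g}.Nonempty := by
      obtain ⟨m, l, hl, h1, h2⟩ := exists_mem_Bl (sy_inv S) (sy_gen h) g
      exact ⟨l.length, l, rfl, h1, h2⟩
    obtain ⟨l, hl, h1, h2⟩ := Nat.sInf_mem hne
    exact ⟨l, by rw [hl]; exact hn, h1, h2⟩
  · rintro ⟨l, hl, h1, h2⟩
    have hmem : l.length ∈ {n : ℕ | ∃ l : List G, l.length = n ∧ (∀ x ∈ l, x ∈ S ∨ x⁻¹ ∈ S) ∧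
        l.prod = g} := ⟨l, rfl, h1, h2⟩
    exact (Nat.sInf_le hmem).trans hl

end

/-- changing the generating sets -/
def QId.change {W G : Type} [Group W] [Group G] {T T' : Set W} {S S' : Set G}
    (q : QId W G T S) (hT' : T'.Finite) (hTi : ∀ x ∈ T', x⁻¹ ∈ T') (k1 k2 k3 k4 : ℕ)
    (h1 : ∀ n, Bl T' n ⊆ Bl T (k1 * n)) (h2 : ∀ n, Bl S n ⊆ Bl S' (k2 * n))
    (h3 : ∀ n, Bl S' n ⊆ Bl S (k3 * n)) (h4 : ∀ n, Bl T n ⊆ Bl T' (k4 * n)) :
    QId W G T' S' where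
  f := q.f
  a := k2 * (q.a * k1) + k4 * (q.a * k3)
  c := k2 * q.c + k4 * q.c
  q1 := by
    intro x y n h
    have e1 := h2 _ (q.q1 x y _ (h1 n h))
    refine Bl_mono ?_ e1
    have : k2 * (q.a * (k1 * n) + q.c) = k2 * (q.a * k1) * n + k2 * q.c := by ring
    rw [this, add_mul]
    omega
  q2 := by
    intro x y n h
    have e1 := h4 _ (q.q2 x y _ (h3 n h))
    refine Bl_mono ?_ e1
    have : k4 * (q.a * (k3 * n) + q.c) = k4 * (q.a * k3) * n + k4 * q.c := by ring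
    rw [this, add_mul]
    omega
  q3 := by
    intro g
    obtain ⟨x, hx⟩ := q.q3 g
    exact ⟨x, Bl_mono (by omega) (h2 _ hx)⟩
  finT := hT'
  invT := hTi

theorem QId.exists_change {W G : Type} [Group W] [Group G] {T T' : Set W} {S S' : Set G}
    (q : QId W G T S) (hTg : Subgroup.closure T = ⊤) (hT'f : T'.Finite)
    (hT'i : ∀ x ∈ T', x⁻¹ ∈ T') (hT'g : Subgroup.closure T' = ⊤)
    (hSf : S.Finite) (hSi : ∀ x ∈ S, x⁻¹ ∈ S) (hSg : Subgroup.closure S = ⊤)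
    (hS'f : S'.Finite) (hS'i : ∀ x ∈ S', x⁻¹ ∈ S') (hS'g : Subgroup.closure S' = ⊤) :
    Nonempty (QId W G T' S') := by
  obtain ⟨k1, h1⟩ := Bl_compare hT'f q.invT hTg
  obtain ⟨k2, h2⟩ := Bl_compare hSf hS'i hS'g
  obtain ⟨k3, h3⟩ := Bl_compare hS'f hSi hSg
  obtain ⟨k4, h4⟩ := Bl_compare q.finT hT'i hT'g
  exact ⟨q.change hT'f hT'i k1 k2 k3 k4 h1 h2 h3 h4⟩

/-- the inverse of a quasi-isometry -/
theorem QId.symm {W G : Type} [Group W] [Group G] {T : Set W} {S : Set G}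
    (q : QId W G T S) (hSf : S.Finite) (hSi : ∀ x ∈ S, x⁻¹ ∈ S) : Nonempty (QId G W S T) := by
  choose s hs using q.q3
  have key : ∀ g h n, g⁻¹ * h ∈ Bl S n → (q.f (s g))⁻¹ * q.f (s h) ∈ Bl S (q.c + n + q.c) := by
    intro g h n hn
    have : (q.f (s g))⁻¹ * q.f (s h) = ((q.f (s g))⁻¹ * g) * (g⁻¹ * h) *
      ((q.f (s h))⁻¹ * h)⁻¹ := by group
    rw [this]
    exact mul_mem_Bl (mul_mem_Bl (hs g) hn) (inv_mem_Bl hSi (hs h))
  refine ⟨⟨s, q.a, q.a * (2 * q.c) + q.c + (2 * q.c), ?_, ?_, ?_, hSf, hSi⟩⟩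
  · intro g h n hn
    refine Bl_mono ?_ (q.q2 _ _ _ (key g h n hn))
    have : q.a * (q.c + n + q.c) = q.a * n + q.a * (2 * q.c) := by ring
    omega
  · intro g h n hn
    have h1 := q.q1 _ _ _ hn
    have : g⁻¹ * h = ((q.f (s g))⁻¹ * g)⁻¹ * ((q.f (s g))⁻¹ * q.f (s h)) *
      ((q.f (s h))⁻¹ * h) := by group
    rw [this]
    refine Bl_mono ?_ (mul_mem_Bl (mul_mem_Bl (inv_mem_Bl hSi (hs g)) h1) (hs h))
    omega
  · intro x
    refine ⟨q.f x, ?_⟩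
    have h1 := q.q2 _ _ _ (hs (q.f x))
    refine Bl_mono ?_ h1
    have : q.a * q.c ≤ q.a * (2 * q.c) := Nat.mul_le_mul_left _ (by omega)
    omega

/-- from the metric definition to balls -/
theorem QuasiIsometric.toQId {G H : Type} [Group G] [Group H] (h : QuasiIsometric G H) :
    ∃ (S : Finset G) (T : Finset H), Subgroup.closure (S : Set G) = ⊤ ∧
      Subgroup.closure (T : Set H) = ⊤ ∧ Nonempty (QId G H (sy S) (sy T)) := by
  obtain ⟨S, T, hS, hT, f, K, C, hK, hC, h1, h2, h3⟩ := h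
  refine ⟨S, T, hS, hT, ⟨⟨f, ⌈K⌉₊, ⌈C⌉₊ + ⌈K * C⌉₊, ?_, ?_, ?_, sy_finite S, sy_inv S⟩⟩⟩
  · intro x y n hn
    rw [← wordLength_le hS] at hn
    rw [← wordLength_le hT]
    have e1 := h2 x y
    unfold wordDist at e1
    have e2 : (wordLength S (x⁻¹ * y) : ℝ) ≤ n := by exact_mod_cast hn
    have e3 : (wordLength T ((f x)⁻¹ * f y) : ℝ) ≤ ((⌈K⌉₊ * n + (⌈C⌉₊ + ⌈K * C⌉₊) : ℕ) : ℝ) := by
      push_cast
      have a1 : K ≤ (⌈K⌉₊ : ℝ) := Nat.le_ceil K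
      have a2 : C ≤ (⌈C⌉₊ : ℝ) := Nat.le_ceil C
      have a3 : (0 : ℝ) ≤ (⌈K * C⌉₊ : ℝ) := Nat.cast_nonneg _
      have a4 : K * (wordLength S (x⁻¹ * y) : ℝ) ≤ (⌈K⌉₊ : ℝ) * n :=
        mul_le_mul a1 e2 (Nat.cast_nonneg _) (Nat.cast_nonneg _)
      linarith
    exact_mod_cast e3
  · intro x y n hn
    rw [← wordLength_le hT] at hn
    rw [← wordLength_le hS]
    have e1 := h1 x y
    unfold wordDist at e1
    have e2 : (wordLength T ((f x)⁻¹ * f y) : ℝ) ≤ n := by exact_mod_cast hn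
    have e3 : (wordLength S (x⁻¹ * y) : ℝ) ≤ ((⌈K⌉₊ * n + (⌈C⌉₊ + ⌈K * C⌉₊) : ℕ) : ℝ) := by
      push_cast
      have a1 : K ≤ (⌈K⌉₊ : ℝ) := Nat.le_ceil K
      have a2 : K * C ≤ (⌈K * C⌉₊ : ℝ) := Nat.le_ceil (K * C)
      have a3 : (0 : ℝ) ≤ (⌈C⌉₊ : ℝ) := Nat.cast_nonneg _
      have hK0 : (0 : ℝ) < K := by linarith
      have a5 : K⁻¹ * (wordLength S (x⁻¹ * y) : ℝ) ≤ n + C := by linarith
      have a6 : (wordLength S (x⁻¹ * y) : ℝ) ≤ K * (n + C) := by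
        rw [inv_mul_le_iff₀ hK0] at a5
        exact a5
      have a7 : K * (n : ℝ) ≤ (⌈K⌉₊ : ℝ) * n := mul_le_mul_of_nonneg_right a1 (Nat.cast_nonneg _)
      nlinarith
    exact_mod_cast e3
  · intro z
    obtain ⟨x, hx⟩ := h3 z
    refine ⟨x, ?_⟩
    rw [← wordLength_le hT]
    unfold wordDist at hx
    have a2 : C ≤ (⌈C⌉₊ : ℝ) := Nat.le_ceil C
    have a3 : (0 : ℝ) ≤ (⌈K * C⌉₊ : ℝ) := Nat.cast_nonneg _
    have : (wordLength T ((f x)⁻¹ * z) : ℝ) ≤ ((⌈C⌉₊ + ⌈K * C⌉₊ : ℕ) : ℝ) := by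
      push_cast; linarith
    exact_mod_cast this

end Pool.Agent.KS6_42.GQ
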