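import Pool.Agent.KS6_42.GQ.Wm

set_option autoImplicit false

/-!
# Quasi-isometries between graph products: replacing vertex groups and removing vertices
-/

namespace Pool.Agent.KS6_42.GQ

open GP

section general

variable {G H : Type} [Group G] [Group H]

/-- a map which is Lipschitz on edges is Lipschitz -/
theorem lip {S : Set G} {T : Set H} {f : G → H} {c : ℕ}
    (h : ∀ g, ∀ s ∈ S, (f g)⁻¹ * f (g * s) ∈ Bl T c) :
    ∀ (n : ℕ) (x y : G), x⁻¹ * y ∈ Bl S n → (f x)⁻¹ * f y ∈ Bl T (c * n) := by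
  intro n
  induction n with
  | zero =>
    intro x y hxy
    rw [Bl_zero] at hxy
    have : x = y := inv_mul_eq_one.mp (Set.mem_singleton_iff.mp hxy)
    subst this
    rw [inv_mul_cancel]
    exact one_mem_Bl _ _
  | succ n ih =>
    intro x y hxy
    rcases Bl_succ hxy with h1 | ⟨b, hb, s, hs, e⟩
    · exact Bl_mono (Nat.mul_le_mul_left _ (Nat.le_succ n)) (ih x y h1)
    · have hy : y = x * b * s := by rw [mul_assoc, ← e]; group
      have h1 := ih x (x * b) (by rwa [inv_mul_cancel_left])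
      have h2 := h (x * b) s hs
      rw [Nat.mul_succ]
      have : (f x)⁻¹ * f y = ((f x)⁻¹ * f (x * b)) * ((f (x * b))⁻¹ * f (x * b * s)) := by
        rw [hy]; group
      rw [this]
      exact mul_mem_Bl h1 h2

/-- composition -/
def QId.comp {K : Type} [Group K] {S : Set G} {T : Set H} {U : Set K} (q : QId G H S T)
    (r : QId H K T U) : QId G K S U where
  f := fun x => r.f (q.f x)
  a := r.a * q.a + q.a * r.a
  c := r.a * q.c + r.c + r.c + (q.a * r.c + q.c)
  q1 := by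
    intro x y n h
    refine Bl_mono ?_ (r.q1 _ _ _ (q.q1 _ _ _ h))
    have : r.a * (q.a * n + q.c) = r.a * q.a * n + r.a * q.c := by ring
    rw [this, add_mul]
    omega
  q2 := by
    intro x y n h
    refine Bl_mono ?_ (q.q2 _ _ _ (r.q2 _ _ _ h))
    have : q.a * (r.a * n + r.c) = q.a * r.a * n + q.a * r.c := by ring
    rw [this, add_mul]
    omega
  q3 := by
    intro g
    obtain ⟨y, hy⟩ := r.q3 g
    obtain ⟨x, hx⟩ := q.q3 y
    refine ⟨x, ?_⟩
    have h1 := r.q1 _ _ _ hx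
    have : (r.f (q.f x))⁻¹ * g = ((r.f (q.f x))⁻¹ * r.f y) * ((r.f y)⁻¹ * g) := by group
    rw [this]
    refine Bl_mono ?_ (mul_mem_Bl h1 hy)
    omega
  finT := q.finT
  invT := q.invT

/-- the identity -/
def QId.refl {S : Set G} (h1 : S.Finite) (h2 : ∀ x ∈ S, x⁻¹ ∈ S) : QId G G S S where
  f := id
  a := 1
  c := 0
  q1 := by intro x y n h; simpa using h
  q2 := by intro x y n h; simpa using h
  q3 := by intro g; exact ⟨g, by simpa using one_mem_Bl S 0⟩
  finT := h1
  invT := h2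

/-- isomorphisms are quasi-isometries -/
theorem QId.ofEquiv {S : Set G} {T : Set H} (e : G ≃* H) (hSf : S.Finite) (hSi : ∀ x ∈ S, x⁻¹ ∈ S)
    (hSg : Subgroup.closure S = ⊤) (hTf : T.Finite) (hTi : ∀ x ∈ T, x⁻¹ ∈ T)
    (hTg : Subgroup.closure T = ⊤) : Nonempty (QId G H S T) := by
  have hf1 : (e '' S).Finite := hSf.image _
  have hf2 : ∀ x ∈ e '' S, x⁻¹ ∈ e '' S := by
    rintro _ ⟨x, hx, rfl⟩
    exact ⟨x⁻¹, hSi x hx, map_inv _ _⟩
  have hf3 : Subgroup.closure (e '' S) = ⊤ := by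
    have h1 : (Subgroup.closure S).map e.toMonoidHom = Subgroup.closure (e '' S) :=
      MonoidHom.map_closure _ _
    rw [← h1, hSg]
    exact Subgroup.map_top_of_surjective _ e.surjective
  have himg : ∀ n g, g ∈ Bl S n ↔ e g ∈ Bl (e '' S) n := by
    intro n g
    constructor
    · intro hg
      exact map_mem_Bl (T := e '' S) e.toMonoidHom (fun x hx => Or.inl ⟨x, hx, rfl⟩) hg
    · intro hg
      have := map_mem_Bl (T := S) e.symm.toMonoidHom (by
        rintro _ ⟨x, hx, rfl⟩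
        left
        simpa using hx) hg
      simpa using this
  have q : QId G H S (e '' S) :=
    { f := e
      a := 1
      c := 0
      q1 := by
        intro x y n h
        rw [← map_inv, ← map_mul, ← himg]
        simpa using h
      q2 := by
        intro x y n h
        rw [← map_inv, ← map_mul, ← himg] at h
        simpa using h
      q3 := by
        intro g
        obtain ⟨x, rfl⟩ := e.surjective g
        exact ⟨x, by rw [inv_mul_cancel]; exact one_mem_Bl _ _⟩
      finT := hSf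
      invT := hSi }
  exact q.exists_change hSg hSf hSi hSg hf1 hf2 hf3 hTf hTi hTg

/-- back to the metric definition -/
theorem QId.toQI {S : Set G} {T : Set H} (q : QId G H S T) (hSg : Subgroup.closure S = ⊤)
    (hTf : T.Finite) (hTi : ∀ x ∈ T, x⁻¹ ∈ T) (hTg : Subgroup.closure T = ⊤) :
    QuasiIsometric G H := by
  classical
  have hS1 : ((q.finT.toFinset : Finset G) : Set G) = S := q.finT.coe_toFinset
  have hT1 : ((hTf.toFinset : Finset H) : Set H) = T := hTf.coe_toFinset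
  have hS2 : sy q.finT.toFinset = S := by
    ext x
    simp only [sy, Set.Finite.mem_toFinset, Set.mem_ofPred_eq]
    constructor
    · rintro (h | h)
      · exact h
      · have := q.invT _ h; rwa [inv_inv] at this
    · exact Or.inl
  have hT2 : sy hTf.toFinset = T := by
    ext x
    simp only [sy, Set.Finite.mem_toFinset, Set.mem_ofPred_eq]
    constructor
    · rintro (h | h)
      · exact h
      · have := hTi _ h; rwa [inv_inv] at this
    · exact Or.inl
  have hS3 : Subgroup.closure ((q.finT.toFinset : Finset G) : Set G) = ⊤ := by rw [hS1]; exact hSg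
  have hT3 : Subgroup.closure ((hTf.toFinset : Finset H) : Set H) = ⊤ := by rw [hT1]; exact hTg
  have hwS : ∀ g n, wordLength q.finT.toFinset g ≤ n ↔ g ∈ Bl S n := by
    intro g n
    have := wordLength_le hS3 g n
    rwa [hS2] at this
  have hwT : ∀ g n, wordLength hTf.toFinset g ≤ n ↔ g ∈ Bl T n := by
    intro g n
    have := wordLength_le hT3 g n
    rwa [hT2] at this
  refine ⟨q.finT.toFinset, hTf.toFinset, hS3, hT3, q.f, (q.a : ℝ) + 1, q.c, ?_, ?_, ?_, ?_, ?_⟩
  · have : (0 : ℝ) ≤ q.a := Nat.cast_nonneg _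
    linarith
  · exact Nat.cast_nonneg _
  · intro x y
    have h1 := (hwT _ _).mp (le_refl (wordLength hTf.toFinset ((q.f x)⁻¹ * q.f y)))
    have h2 := (hwS _ _).mpr (q.q2 x y _ h1)
    unfold wordDist
    have h3 : (wordLength q.finT.toFinset (x⁻¹ * y) : ℝ) ≤
        q.a * (wordLength hTf.toFinset ((q.f x)⁻¹ * q.f y) : ℝ) + q.c := by exact_mod_cast h2
    have ha : (0 : ℝ) ≤ q.a := Nat.cast_nonneg _
    have hc : (0 : ℝ) ≤ q.c := Nat.cast_nonneg _
    have hd : (0 : ℝ) ≤ (wordLength hTf.toFinset ((q.f x)⁻¹ * q.f y) : ℝ) := Nat.cast_nonneg _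
    have hK : (0 : ℝ) < (q.a : ℝ) + 1 := by linarith
    rw [sub_le_iff_le_add, inv_mul_le_iff₀ hK]
    nlinarith
  · intro x y
    have h1 := (hwS _ _).mp (le_refl (wordLength q.finT.toFinset (x⁻¹ * y)))
    have h2 := (hwT _ _).mpr (q.q1 x y _ h1)
    unfold wordDist
    have h3 : (wordLength hTf.toFinset ((q.f x)⁻¹ * q.f y) : ℝ) ≤
        q.a * (wordLength q.finT.toFinset (x⁻¹ * y) : ℝ) + q.c := by exact_mod_cast h2
    have hd : (0 : ℝ) ≤ (wordLength q.finT.toFinset (x⁻¹ * y) : ℝ) := Nat.cast_nonneg _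
    nlinarith
  · intro z
    obtain ⟨x, hx⟩ := q.q3 z
    refine ⟨x, ?_⟩
    have := (hwT _ _).mpr hx
    unfold wordDist
    exact_mod_cast this

end general

namespace GP

variable {V : Type} {Γ : SimpleGraph V} {A : V → Type} [∀ v, Group (A v)]

theorem proj_of_ne {u v : V} (h : u ≠ v) (x : A u) : proj v (of u x : GraphProd Γ A) = 1 := by
  simp [proj, h]

section swap

variable {A' : V → Type} [∀ v, Group (A' v)]

theorem exists_swap (e : ∀ v, A v ≃ A' v) :
    ∃ F : GraphProd Γ A → GraphProd Γ A', F 1 = 1 ∧ ∀ v g (x : A v),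
      F (g * of v x) = F g * of v ((e v (proj v g))⁻¹ * e v (proj v g * x)) := by
  apply exists_potential (Γ := Γ) (A := A) (F := GraphProd Γ A')
    (fun v g x => of v ((e v (proj v g))⁻¹ * e v (proj v g * x)))
  · intro v g x y
    have hp : proj v (g * of v x) = proj v g * x := by rw [map_mul, proj_of]
    rw [hp, ← map_mul]
    congr 1
    rw [mul_assoc (proj v g)]
    group
  · intro u v h g x y
    have huv : u ≠ v := by rintro rfl; exact Γ.loopless.irrefl _ h
    rw [map_mul (proj v) g, proj_of_ne huv, mul_one, map_mul (proj u) g, proj_of_ne huv.symm,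
      mul_one]
    exact of_comm h _ _

theorem swap_proj (e : ∀ v, A v ≃ A' v) (he : ∀ v, e v 1 = 1)
    {F : GraphProd Γ A → GraphProd Γ A'} (F1 : F 1 = 1) (F2 : ∀ v g (x : A v),
      F (g * of v x) = F g * of v ((e v (proj v g))⁻¹ * e v (proj v g * x)))
    (v : V) (g : GraphProd Γ A) : proj v (F g) = e v (proj v g) := by
  induction g using induction_right with
  | h1 => rw [F1, map_one, map_one, he]
  | hm g u x ih =>
    rw [F2, map_mul (proj v) (F g), ih, map_mul (proj v) g]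
    by_cases h : u = v
    · subst h
      rw [proj_of, proj_of, mul_inv_cancel_left]
    · rw [proj_of_ne h, proj_of_ne h, mul_one, mul_one]

theorem swap_swap (e : ∀ v, A v ≃ A' v) (he : ∀ v, e v 1 = 1)
    {F : GraphProd Γ A → GraphProd Γ A'} (F1 : F 1 = 1) (F2 : ∀ v g (x : A v),
      F (g * of v x) = F g * of v ((e v (proj v g))⁻¹ * e v (proj v g * x)))
    {F' : GraphProd Γ A' → GraphProd Γ A} (F1' : F' 1 = 1) (F2' : ∀ v g (x : A' v),
      F' (g * of v x) = F' g * of v (((e v).symm (proj v g))⁻¹ * (e v).symm (proj v g * x)))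
    (g : GraphProd Γ A) : F' (F g) = g := by
  induction g using induction_right with
  | h1 => rw [F1, F1']
  | hm g v x ih =>
    rw [F2, F2', ih, swap_proj e he F1 F2, mul_inv_cancel_left, Equiv.symm_apply_apply,
      Equiv.symm_apply_apply, inv_mul_cancel_left]

/-- **Replacing vertex groups by vertex groups of the same order.** -/
theorem swap_qid [Finite V] [∀ v, Finite (A v)] (e : ∀ v, A v ≃ A' v) (he : ∀ v, e v 1 = 1) :
    Nonempty (QId (GraphProd Γ A) (GraphProd Γ A') (gens Set.univ) (gens Set.univ)) := by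
  obtain ⟨F, F1, F2⟩ := exists_swap (Γ := Γ) e
  obtain ⟨F', F1', F2'⟩ := exists_swap (Γ := Γ) (fun v => (e v).symm)
  have he' : ∀ v, (e v).symm 1 = 1 := by
    intro v
    rw [Equiv.symm_apply_eq, he]
  have h1 := swap_swap e he F1 F2 F1' F2'
  have h2 := swap_swap (fun v => (e v).symm) he' F1' F2' F1 F2
  have l1 : ∀ g, ∀ s ∈ (gens Set.univ : Set (GraphProd Γ A)),
      (F g)⁻¹ * F (g * s) ∈ Bl (gens Set.univ) 1 := by
    rintro g _ ⟨v, -, x, rfl⟩
    rw [F2, inv_mul_cancel_left]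
    exact gen_mem_Bl ⟨v, trivial, _, rfl⟩
  have l2 : ∀ g, ∀ s ∈ (gens Set.univ : Set (GraphProd Γ A')),
      (F' g)⁻¹ * F' (g * s) ∈ Bl (gens Set.univ) 1 := by
    rintro g _ ⟨v, -, x, rfl⟩
    rw [F2', inv_mul_cancel_left]
    exact gen_mem_Bl ⟨v, trivial, _, rfl⟩
  exact ⟨{
    f := F
    a := 1
    c := 0
    q1 := fun x y n h => lip l1 n x y h
    q2 := by
      intro x y n h
      have := lip l2 n _ _ h
      rwa [h1, h1] at this
    q3 := by
      intro g
      exact ⟨F' g, by rw [h2, inv_mul_cancel]; exact one_mem_Bl _ _⟩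
    finT := gens_finite _
    invT := gens_inv _ }⟩

end swap

section kill

variable (Γ) (A) (w : V)

/-- the vertices of the kernel -/
abbrev KV : Type := {l : V // Γ.Adj w l} ⊕ (A w × {v : V // v ≠ w ∧ ¬ Γ.Adj w v})

/-- the underlying vertex -/
def und : KV Γ A w → V
  | Sum.inl l => l.1
  | Sum.inr p => p.2.1

/-- same copy -/
def same : KV Γ A w → KV Γ A w → Prop
  | Sum.inr p, Sum.inr p' => p.1 = p'.1
  | _, _ => True

/-- The graph of the kernel of the projection to the vertex group at `w`: copies of the graph with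
`w` removed, glued along the link of `w`. -/
def KG : SimpleGraph (KV Γ A w) where
  Adj a b := Γ.Adj (und Γ A w a) (und Γ A w b) ∧ same Γ A w a b
  symm := by
    constructor
    rintro a b ⟨h1, h2⟩
    refine ⟨h1.symm, ?_⟩
    rcases a with l | p <;> rcases b with l' | p'
    · trivial
    · trivial
    · trivial
    · exact Eq.symm h2
  loopless := by
    constructor
    rintro a ⟨h, -⟩
    exact Γ.loopless.irrefl _ h

/-- the vertex groups of the kernel -/
abbrev KA : KV Γ A w → Type := fun a => A (und Γ A w a)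

/-- The graph product of the kernel. -/
abbrev KN : Type := GraphProd (KG Γ A w) (KA Γ A w)

/-- elements over the link -/
def kl (l : {l : V // Γ.Adj w l}) : A l.1 →* KN Γ A w :=
  GP.of (Γ := KG Γ A w) (A := KA Γ A w) (Sum.inl l)

/-- elements over the other vertices -/
def kr (k : A w) (v : {v : V // v ≠ w ∧ ¬ Γ.Adj w v}) : A v.1 →* KN Γ A w :=
  GP.of (Γ := KG Γ A w) (A := KA Γ A w) (Sum.inr (k, v))

open Classical in
/-- the increments -/
noncomputable def kd (v : V) (g : GraphProd Γ A) (x : A v) : KN Γ A w :=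
  if h : v = w then 1 else if h' : Γ.Adj w v then kl Γ A w ⟨v, h'⟩ x
    else kr Γ A w (proj w g) ⟨v, h, h'⟩ x

theorem kd_w (g : GraphProd Γ A) (x : A w) : kd Γ A w w g x = 1 := by simp [kd]

theorem kd_l (l : {l : V // Γ.Adj w l}) (g : GraphProd Γ A) (x : A l.1) :
    kd Γ A w l.1 g x = kl Γ A w l x := by
  have h1 : l.1 ≠ w := by
    intro h
    have := l.2
    rw [h] at this
    exact Γ.loopless.irrefl _ this
  simp [kd, h1, l.2]

theorem kd_r (v : {v : V // v ≠ w ∧ ¬ Γ.Adj w v}) (g : GraphProd Γ A) (x : A v.1) :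
    kd Γ A w v.1 g x = kr Γ A w (proj w g) v x := by
  simp [kd, v.2.1, v.2.2]

theorem kcases (v : V) : v = w ∨ (∃ l : {l : V // Γ.Adj w l}, v = l.1) ∨
    (∃ u : {v : V // v ≠ w ∧ ¬ Γ.Adj w v}, v = u.1) := by
  by_cases h : v = w
  · exact Or.inl h
  · by_cases h' : Γ.Adj w v
    · exact Or.inr (Or.inl ⟨⟨v, h'⟩, rfl⟩)
    · exact Or.inr (Or.inr ⟨⟨v, h, h'⟩, rfl⟩)

theorem l_ne (l : {l : V // Γ.Adj w l}) : l.1 ≠ w := by
  intro h
  have := l.2
  rw [h] at this
  exact Γ.loopless.irrefl _ this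

theorem exists_kPsi : ∃ F : GraphProd Γ A → KN Γ A w, F 1 = 1 ∧ ∀ v g (x : A v),
    F (g * of v x) = F g * kd Γ A w v g x := by
  apply exists_potential (Γ := Γ) (A := A) (F := KN Γ A w) (kd Γ A w)
  · intro v g x y
    rcases kcases Γ w v with rfl | ⟨l, rfl⟩ | ⟨u, rfl⟩
    · rw [kd_w, kd_w, kd_w, mul_one]
    · rw [kd_l, kd_l, kd_l, map_mul]
    · rw [kd_r, kd_r, kd_r, map_mul, map_mul, proj_of_ne u.2.1, mul_one]
  · intro u v h g x y
    rcases kcases Γ w u with hu | ⟨l, rfl⟩ | ⟨u, rfl⟩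
    · subst hu
      rw [kd_w, kd_w, one_mul, mul_one]
      rw [kd_l Γ A u ⟨v, h⟩, kd_l Γ A u ⟨v, h⟩]
    · rcases kcases Γ w v with hv | ⟨l', rfl⟩ | ⟨v, rfl⟩
      · subst hv
        rw [kd_w, kd_w, one_mul, mul_one, kd_l, kd_l]
      · rw [kd_l, kd_l, kd_l, kd_l]
        exact of_comm (Γ := KG Γ A w) (A := KA Γ A w) (u := Sum.inl l) (v := Sum.inl l')
          ⟨h, trivial⟩ x y
      · rw [kd_l, kd_l, kd_r, kd_r, map_mul, proj_of_ne (l_ne Γ w l), mul_one]
        exact of_comm (Γ := KG Γ A w) (A := KA Γ A w) (u := Sum.inl l)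
          (v := Sum.inr (proj w g, v)) ⟨h, trivial⟩ x y
    · rcases kcases Γ w v with hv | ⟨l', rfl⟩ | ⟨v, rfl⟩
      · subst hv
        exact absurd h.symm u.2.2
      · rw [kd_l, kd_l, kd_r, kd_r, map_mul, proj_of_ne (l_ne Γ w l'), mul_one]
        exact of_comm (Γ := KG Γ A w) (A := KA Γ A w) (u := Sum.inr (proj w g, u))
          (v := Sum.inl l') ⟨h, trivial⟩ x y
      · rw [kd_r, kd_r, kd_r, kd_r, map_mul, map_mul, proj_of_ne u.2.1, proj_of_ne v.2.1, mul_one]
        exact of_comm (Γ := KG Γ A w) (A := KA Γ A w) (u := Sum.inr (proj w g, u))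
          (v := Sum.inr (proj w g, v)) ⟨h, rfl⟩ x y

/-- the maps from the vertex groups of the kernel -/
def kt : ∀ a : KV Γ A w, KA Γ A w a →* GraphProd Γ A
  | Sum.inl l => GP.of (Γ := Γ) (A := A) l.1
  | Sum.inr p => ((MulAut.conj (GP.of (Γ := Γ) (A := A) w p.1)).toMonoidHom).comp
      (GP.of (Γ := Γ) (A := A) p.2.1)

/-- the inclusion of the kernel -/
def kTheta : KN Γ A w →* GraphProd Γ A :=
  GP.lift (Γ := KG Γ A w) (A := KA Γ A w) (kt Γ A w) (by
    intro a b hab x y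
    obtain ⟨h1, h2⟩ := hab
    rcases a with l | p <;> rcases b with l' | p'
    · exact of_comm (Γ := Γ) (A := A) h1 x y
    · have c1 := of_comm (Γ := Γ) (A := A) (show Γ.Adj l.1 p'.2.1 from h1) x y
      have c2 := of_comm (Γ := Γ) (A := A) l.2 p'.1 x
      show GP.of l.1 x * (GP.of w p'.1 * GP.of p'.2.1 y * (GP.of w p'.1)⁻¹) =
        (GP.of w p'.1 * GP.of p'.2.1 y * (GP.of w p'.1)⁻¹) * GP.of l.1 x
      have c3 : (GP.of w p'.1 : GraphProd Γ A)⁻¹ * GP.of l.1 x =
          GP.of l.1 x * (GP.of w p'.1)⁻¹ := by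
        rw [inv_mul_eq_iff_eq_mul, ← mul_assoc, c2, mul_inv_cancel_right]
      calc (GP.of l.1 x : GraphProd Γ A) * (GP.of w p'.1 * GP.of p'.2.1 y * (GP.of w p'.1)⁻¹) =
          (GP.of l.1 x * GP.of w p'.1) * GP.of p'.2.1 y * (GP.of w p'.1)⁻¹ := by
            simp only [mul_assoc]
        _ = (GP.of w p'.1 * GP.of l.1 x) * GP.of p'.2.1 y * (GP.of w p'.1)⁻¹ := by rw [c2]
        _ = GP.of w p'.1 * (GP.of l.1 x * GP.of p'.2.1 y) * (GP.of w p'.1)⁻¹ := by
            simp only [mul_assoc]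
        _ = GP.of w p'.1 * (GP.of p'.2.1 y * GP.of l.1 x) * (GP.of w p'.1)⁻¹ := by rw [c1]
        _ = GP.of w p'.1 * GP.of p'.2.1 y * (GP.of l.1 x * (GP.of w p'.1)⁻¹) := by
            simp only [mul_assoc]
        _ = GP.of w p'.1 * GP.of p'.2.1 y * ((GP.of w p'.1)⁻¹ * GP.of l.1 x) := by rw [c3]
        _ = _ := by simp only [mul_assoc]
    · have c1 := of_comm (Γ := Γ) (A := A) (show Γ.Adj p.2.1 l'.1 from h1) x y
      have c2 := of_comm (Γ := Γ) (A := A) l'.2 p.1 y
      show (GP.of w p.1 * GP.of p.2.1 x * (GP.of w p.1)⁻¹) * GP.of l'.1 y =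
        GP.of l'.1 y * (GP.of w p.1 * GP.of p.2.1 x * (GP.of w p.1)⁻¹)
      have c3 : (GP.of w p.1 : GraphProd Γ A)⁻¹ * GP.of l'.1 y =
          GP.of l'.1 y * (GP.of w p.1)⁻¹ := by
        rw [inv_mul_eq_iff_eq_mul, ← mul_assoc, c2, mul_inv_cancel_right]
      calc (GP.of w p.1 : GraphProd Γ A) * GP.of p.2.1 x * (GP.of w p.1)⁻¹ * GP.of l'.1 y =
          GP.of w p.1 * GP.of p.2.1 x * ((GP.of w p.1)⁻¹ * GP.of l'.1 y) := by
            simp only [mul_assoc]
        _ = GP.of w p.1 * GP.of p.2.1 x * (GP.of l'.1 y * (GP.of w p.1)⁻¹) := by rw [c3]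
        _ = GP.of w p.1 * (GP.of p.2.1 x * GP.of l'.1 y) * (GP.of w p.1)⁻¹ := by
            simp only [mul_assoc]
        _ = GP.of w p.1 * (GP.of l'.1 y * GP.of p.2.1 x) * (GP.of w p.1)⁻¹ := by rw [c1]
        _ = (GP.of w p.1 * GP.of l'.1 y) * GP.of p.2.1 x * (GP.of w p.1)⁻¹ := by
            simp only [mul_assoc]
        _ = (GP.of l'.1 y * GP.of w p.1) * GP.of p.2.1 x * (GP.of w p.1)⁻¹ := by rw [c2]
        _ = _ := by simp only [mul_assoc]
    · obtain ⟨k, u⟩ := p
      obtain ⟨k', u'⟩ := p'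
      have hk : k = k' := h2
      subst hk
      have c1 := of_comm (Γ := Γ) (A := A) (show Γ.Adj u.1 u'.1 from h1) x y
      show (GP.of w k * GP.of u.1 x * (GP.of w k)⁻¹) * (GP.of w k * GP.of u'.1 y * (GP.of w k)⁻¹) =
        (GP.of w k * GP.of u'.1 y * (GP.of w k)⁻¹) * (GP.of w k * GP.of u.1 x * (GP.of w k)⁻¹)
      calc (GP.of w k : GraphProd Γ A) * GP.of u.1 x * (GP.of w k)⁻¹ *
            (GP.of w k * GP.of u'.1 y * (GP.of w k)⁻¹) =
          GP.of w k * (GP.of u.1 x * GP.of u'.1 y) * (GP.of w k)⁻¹ := by group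
        _ = GP.of w k * (GP.of u'.1 y * GP.of u.1 x) * (GP.of w k)⁻¹ := by rw [c1]
        _ = _ := by group)

theorem kTheta_l (l : {l : V // Γ.Adj w l}) (x : A l.1) :
    kTheta Γ A w (kl Γ A w l x) = GP.of (Γ := Γ) (A := A) l.1 x := GP.lift_of _ _ _ _

theorem kTheta_r (k : A w) (v : {v : V // v ≠ w ∧ ¬ Γ.Adj w v}) (x : A v.1) :
    kTheta Γ A w (kr Γ A w k v x) = GP.of w k * GP.of (Γ := Γ) (A := A) v.1 x * (GP.of w k)⁻¹ :=
  GP.lift_of _ _ _ _

/-- induction in the kernel -/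
theorem kn_induction {p : KN Γ A w → Prop} (n : KN Γ A w) (h1 : p 1)
    (hl : ∀ n l (x : A l.1), p n → p (n * kl Γ A w l x))
    (hr : ∀ n k u (x : A u.1), p n → p (n * kr Γ A w k u x)) : p n := by
  induction n using induction_right with
  | h1 => exact h1
  | hm n a x ih =>
    rcases a with l | ⟨k, u⟩
    · exact hl n l x ih
    · exact hr n k u x ih

theorem kTheta_kPsi {F : GraphProd Γ A → KN Γ A w} (F1 : F 1 = 1)
    (F2 : ∀ v g (x : A v), F (g * of v x) = F g * kd Γ A w v g x) (g : GraphProd Γ A) :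
    g = kTheta Γ A w (F g) * of w (proj w g) := by
  induction g using induction_right with
  | h1 => rw [F1, map_one, map_one, map_one, mul_one]
  | hm g v x ih =>
    rw [F2]
    rcases kcases Γ w v with hv | ⟨l, rfl⟩ | ⟨u, rfl⟩
    · subst hv
      rw [kd_w, mul_one, map_mul, proj_of, map_mul, ← mul_assoc, ← ih]
    · rw [kd_l, map_mul, kTheta_l, map_mul, proj_of_ne (l_ne Γ w l), mul_one, mul_assoc,
        ← of_comm (Γ := Γ) (A := A) l.2, ← mul_assoc, ← ih]
    · rw [kd_r, map_mul, kTheta_r, map_mul, proj_of_ne u.2.1, mul_one]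
      calc g * of u.1 x = (kTheta Γ A w (F g) * of w (proj w g)) * of u.1 x := by rw [← ih]
        _ = _ := by group

theorem proj_kTheta (n : KN Γ A w) : proj w (kTheta Γ A w n) = 1 := by
  refine kn_induction Γ A w (p := fun n => proj w (kTheta Γ A w n) = 1) n ?_ ?_ ?_
  · rw [map_one, map_one]
  · intro n l x ih
    rw [map_mul, map_mul, ih, one_mul, kTheta_l, proj_of_ne (l_ne Γ w l)]
  · intro n k u x ih
    rw [map_mul, map_mul, ih, one_mul, kTheta_r, map_mul, map_mul, map_inv, proj_of_ne u.2.1,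
      mul_one, mul_inv_cancel]

theorem kPsi_kTheta {F : GraphProd Γ A → KN Γ A w} (F1 : F 1 = 1)
    (F2 : ∀ v g (x : A v), F (g * of v x) = F g * kd Γ A w v g x) (n : KN Γ A w) :
    F (kTheta Γ A w n) = n := by
  refine kn_induction Γ A w (p := fun n => F (kTheta Γ A w n) = n) n ?_ ?_ ?_
  · rw [map_one, F1]
  · intro n l x ih
    rw [map_mul, kTheta_l, F2, ih, kd_l]
  · intro n k u x ih
    rw [map_mul, kTheta_r, ← map_inv, ← mul_assoc, ← mul_assoc, F2, kd_w, mul_one, F2, kd_r,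
      F2, kd_w, mul_one, ih, map_mul, proj_kTheta, proj_of, one_mul]

/-- **Removing a vertex.** -/
theorem kill_qid [Finite V] [∀ v, Finite (A v)] :
    Nonempty (QId (GraphProd Γ A) (KN Γ A w) (gens Set.univ) (gens Set.univ)) := by
  obtain ⟨F, F1, F2⟩ := exists_kPsi Γ A w
  have l1 : ∀ g, ∀ s ∈ (gens Set.univ : Set (GraphProd Γ A)),
      (F g)⁻¹ * F (g * s) ∈ Bl (gens Set.univ) 1 := by
    rintro g _ ⟨v, -, x, rfl⟩
    rw [F2, inv_mul_cancel_left]
    rcases kcases Γ w v with hv | ⟨l, rfl⟩ | ⟨u, rfl⟩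
    · subst hv
      rw [kd_w]
      exact one_mem_Bl _ _
    · rw [kd_l]
      exact gen_mem_Bl ⟨_, trivial, _, rfl⟩
    · rw [kd_r]
      exact gen_mem_Bl ⟨_, trivial, _, rfl⟩
  have hw : ∀ k : A w, (of w k : GraphProd Γ A) ∈ Bl (gens Set.univ) 1 := fun k =>
    gen_mem_Bl ⟨w, trivial, k, rfl⟩
  have key1 : ∀ (g : KN Γ A w) (l : {l : V // Γ.Adj w l}) (x : A l.1),
      (kTheta Γ A w g)⁻¹ * kTheta Γ A w (g * kl Γ A w l x) ∈ Bl (gens Set.univ) 3 := by
    intro g l x
    rw [map_mul, inv_mul_cancel_left, kTheta_l]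
    exact Bl_mono (by omega) (gen_mem_Bl ⟨_, trivial, _, rfl⟩)
  have key2 : ∀ (g : KN Γ A w) (k : A w) (u : {v : V // v ≠ w ∧ ¬ Γ.Adj w v}) (x : A u.1),
      (kTheta Γ A w g)⁻¹ * kTheta Γ A w (g * kr Γ A w k u x) ∈ Bl (gens Set.univ) 3 := by
    intro g k u x
    rw [map_mul, inv_mul_cancel_left, kTheta_r]
    exact mul_mem_Bl (mul_mem_Bl (hw k) (gen_mem_Bl ⟨_, trivial, _, rfl⟩))
      (inv_mem_Bl (gens_inv _) (hw k))
  have l2 : ∀ g, ∀ s ∈ (gens Set.univ : Set (KN Γ A w)),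
      (kTheta Γ A w g)⁻¹ * kTheta Γ A w (g * s) ∈ Bl (gens Set.univ) 3 := by
    rintro g _ ⟨a, -, x, rfl⟩
    rcases a with l | ⟨k, u⟩
    · exact key1 g l x
    · exact key2 g k u x
  exact ⟨{
    f := F
    a := 3
    c := 2
    q1 := by
      intro x y n h
      exact Bl_mono (by omega) (lip l1 n x y h)
    q2 := by
      intro x y n h
      have h1 := lip l2 n _ _ h
      have h2 := kTheta_kPsi Γ A w F1 F2 x
      have h3 := kTheta_kPsi Γ A w F1 F2 y
      have : x⁻¹ * y = (of w (proj w x))⁻¹ * ((kTheta Γ A w (F x))⁻¹ * kTheta Γ A w (F y)) *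
          of w (proj w y) := by
        calc x⁻¹ * y = (kTheta Γ A w (F x) * of w (proj w x))⁻¹ *
              (kTheta Γ A w (F y) * of w (proj w y)) := by rw [← h2, ← h3]
          _ = _ := by group
      rw [this]
      refine Bl_mono ?_ (mul_mem_Bl (mul_mem_Bl (inv_mem_Bl (gens_inv _) (hw _)) h1) (hw _))
      omega
    q3 := by
      intro n
      exact ⟨kTheta Γ A w n, by
        rw [kPsi_kTheta Γ A w F1 F2, inv_mul_cancel]; exact one_mem_Bl _ _⟩
    finT := gens_finite _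
    invT := gens_inv _ }⟩

end kill

end GP

end Pool.Agent.KS6_42.GQ
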